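import Mathlib

set_option autoImplicit false

/-!
# Closed normal subloops of a topological loop
-/

namespace Pool.Agent.TH15.MoufangHaar

/-- `N` is a closed normal subloop of the topological loop `G` (unit `e`, left division `ldiv`) -/
structure ClosedNormal {G : Type*} [TopologicalSpace G] (mul ldiv : G → G → G) (e : G) (N : Set G) :
    Prop where
  closed : IsClosed N
  one_mem : e ∈ N
  mul_mem : ∀ x ∈ N, ∀ y ∈ N, mul x y ∈ N
  inv_mem : ∀ x ∈ N, ldiv x e ∈ N
  comm : ∀ x, (fun n => mul x n) '' N = (fun n => mul n x) '' N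
  left : ∀ x y, (fun n => mul x (mul y n)) '' N = (fun n => mul (mul x y) n) '' N
  right : ∀ x y, (fun n => mul (mul n x) y) '' N = (fun n => mul n (mul x y)) '' N

end Pool.Agent.TH15.MoufangHaar
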