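import Mathlib
import Pool.Agent.Helper974.Moufang.Basic
import Pool.Agent.TH15.MoufangHaar.Defs

set_option autoImplicit false
set_option linter.unusedSectionVars false

/-!
# Compatible multivalued triples of a loop and normal subloops
-/

namespace Pool.Agent.TH15.MoufangHaar

open Topology Filter Set
open Pool.Agent.Helper974.Moufang (IsMoufang)

universe u

/-- the unit has a neighbourhood which contains no nontrivial closed normal subloop -/
def NoSmallNormal {G : Type*} [TopologicalSpace G] (mul ldiv : G → G → G) (e : G) : Prop :=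
  ∃ V ∈ 𝓝 e, ∀ N : Set G, ClosedNormal mul ldiv e N → N ⊆ V → N = {e}

/-- a triple of relations compatible with the loop operations -/
structure Rel3 {G : Type*} (mul ldiv rdiv : G → G → G) (R1 R2 R3 : G → G → Prop) : Prop where
  tot1 : ∀ x, ∃ w, R1 x w
  tot2 : ∀ x, ∃ w, R2 x w
  tot3 : ∀ x, ∃ w, R3 x w
  sur1 : ∀ w, ∃ x, R1 x w
  sur2 : ∀ w, ∃ x, R2 x w
  sur3 : ∀ w, ∃ x, R3 x w
  m : ∀ {x w y v}, R1 x w → R2 y v → R3 (mul x y) (mul w v)
  d1 : ∀ {z u y v}, R3 z u → R2 y v → R1 (rdiv z y) (rdiv u v)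
  d2 : ∀ {z u x w}, R3 z u → R1 x w → R2 (ldiv x z) (ldiv w u)

/-- an equivalence relation compatible with the loop operations -/
structure Cong {G : Type*} (mul ldiv rdiv : G → G → G) (E : G → G → Prop) : Prop where
  refl : ∀ x, E x x
  symm : ∀ {x y}, E x y → E y x
  trans : ∀ {x y z}, E x y → E y z → E x z
  mul_r : ∀ {x y} z, E x y → E (mul x z) (mul y z)
  mul_l : ∀ {x y} z, E x y → E (mul z x) (mul z y)
  ldiv_l : ∀ {x y} z, E x y → E (ldiv z x) (ldiv z y)
  rdiv_r : ∀ {x y} z, E x y → E (rdiv x z) (rdiv y z)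

namespace Rel3
variable {G : Type*} {mul ldiv rdiv : G → G → G} {e : G} {R1 R2 R3 : G → G → Prop}

theorem inv (hR : Rel3 mul ldiv rdiv R1 R2 R3) :
    Rel3 mul ldiv rdiv (fun x y => R1 y x) (fun x y => R2 y x) (fun x y => R3 y x) where
  tot1 := hR.sur1
  tot2 := hR.sur2
  tot3 := hR.sur3
  sur1 := hR.tot1
  sur2 := hR.tot2
  sur3 := hR.tot3
  m := fun h1 h2 => hR.m h1 h2
  d1 := fun h1 h2 => hR.d1 h1 h2
  d2 := fun h1 h2 => hR.d2 h1 h2

variable (h : IsMoufang mul ldiv rdiv e) (hR : Rel3 mul ldiv rdiv R1 R2 R3)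
include h hR

theorem rdiv_one (x : G) : rdiv x e = x := by
  have := h.mul_rdiv e x
  rwa [h.mul_one] at this

omit hR in
theorem ldiv_one (x : G) : ldiv e x = x := by
  have := h.ldiv_mul e x
  rwa [h.one_mul] at this

theorem tr1 {x x' w w' : G} (a : R1 x w) (b : R1 x' w) (c : R1 x w') : R1 x' w' := by
  obtain ⟨v, hv⟩ := hR.tot2 e
  have h1 := hR.m a hv
  have h2 := hR.d2 h1 b
  rw [h.ldiv_mul] at h2
  have h3 := hR.m c hv
  have h4 := hR.d1 h3 h2
  rw [h.mul_rdiv] at h4
  have h5 : rdiv (mul x e) (ldiv x' (mul x e)) = x' := by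
    have := h.mul_rdiv (ldiv x' (mul x e)) x'
    rwa [h.mul_ldiv] at this
  rwa [h5] at h4

theorem e1_e3 {w w' : G} (v : G) (a : ∃ x, R1 x w ∧ R1 x w') :
    ∃ z, R3 z (mul w v) ∧ R3 z (mul w' v) := by
  obtain ⟨x, a, b⟩ := a
  obtain ⟨y, hy⟩ := hR.sur2 v
  exact ⟨_, hR.m a hy, hR.m b hy⟩

theorem e3_e1 {u u' : G} (v : G) (a : ∃ z, R3 z u ∧ R3 z u') :
    ∃ x, R1 x (rdiv u v) ∧ R1 x (rdiv u' v) := by
  obtain ⟨z, a, b⟩ := a
  obtain ⟨y, hy⟩ := hR.sur2 v
  exact ⟨_, hR.d1 a hy, hR.d1 b hy⟩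

theorem e2_e3 {v v' : G} (w : G) (a : ∃ x, R2 x v ∧ R2 x v') :
    ∃ z, R3 z (mul w v) ∧ R3 z (mul w v') := by
  obtain ⟨y, a, b⟩ := a
  obtain ⟨x, hx⟩ := hR.sur1 w
  exact ⟨_, hR.m hx a, hR.m hx b⟩

theorem e3_e2 {u u' : G} (w : G) (a : ∃ z, R3 z u ∧ R3 z u') :
    ∃ x, R2 x (ldiv w u) ∧ R2 x (ldiv w u') := by
  obtain ⟨z, a, b⟩ := a
  obtain ⟨x, hx⟩ := hR.sur1 w
  exact ⟨_, hR.d2 a hx, hR.d2 b hx⟩

theorem e13 {w w' : G} : (∃ x, R1 x w ∧ R1 x w') ↔ ∃ z, R3 z w ∧ R3 z w' := by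
  constructor
  · intro a
    have := e1_e3 h hR e a
    rwa [h.mul_one, h.mul_one] at this
  · intro a
    have := e3_e1 h hR e a
    rwa [rdiv_one h hR, rdiv_one h hR] at this

theorem e23 {w w' : G} : (∃ x, R2 x w ∧ R2 x w') ↔ ∃ z, R3 z w ∧ R3 z w' := by
  constructor
  · intro a
    have := e2_e3 h hR e a
    rwa [h.one_mul, h.one_mul] at this
  · intro a
    have := e3_e2 h hR e a
    rwa [ldiv_one h, ldiv_one h] at this

theorem cong : Cong mul ldiv rdiv (fun w w' => ∃ x, R1 x w ∧ R1 x w') where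
  refl := fun w => by
    obtain ⟨x, hx⟩ := hR.sur1 w
    exact ⟨x, hx, hx⟩
  symm := fun ⟨x, a, b⟩ => ⟨x, b, a⟩
  trans := by
    rintro w w' w'' ⟨x, a, b⟩ ⟨x', c, d⟩
    exact ⟨x, a, tr1 h hR c b d⟩
  mul_r := fun z a => (e13 h hR).2 (e1_e3 h hR z a)
  mul_l := fun z a => (e13 h hR).2 (e2_e3 h hR z ((e23 h hR).2 ((e13 h hR).1 a)))
  ldiv_l := fun z a => (e13 h hR).2 ((e23 h hR).1 (e3_e2 h hR z ((e13 h hR).1 a)))
  rdiv_r := fun z a => e3_e1 h hR z ((e13 h hR).1 a)

end Rel3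

namespace Cong
variable {G : Type*} {mul ldiv rdiv : G → G → G} {e : G} {E : G → G → Prop}
  (h : IsMoufang mul ldiv rdiv e) (hE : Cong mul ldiv rdiv E)
include h hE

theorem iff_ldiv {x y : G} : E x y ↔ E e (ldiv x y) := by
  constructor
  · intro a
    have := hE.ldiv_l x a
    have h1 : ldiv x x = e := by
      have := h.ldiv_mul x e
      rwa [h.mul_one] at this
    rwa [h1] at this
  · intro a
    have := hE.mul_l x a
    rwa [h.mul_one, h.mul_ldiv] at this

theorem iff_rdiv {x y : G} : E x y ↔ E e (rdiv y x) := by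
  constructor
  · intro a
    have := hE.rdiv_r x a
    have h1 : rdiv x x = e := by
      have := h.mul_rdiv x e
      rwa [h.one_mul] at this
    rwa [h1] at this
  · intro a
    have := hE.mul_r x a
    rwa [h.one_mul, h.rdiv_mul] at this

theorem image_l (x : G) : (fun n => mul x n) '' {n | E e n} = {y | E x y} := by
  ext y
  constructor
  · rintro ⟨n, hn, rfl⟩
    have := hE.mul_l x hn
    rwa [h.mul_one] at this
  · intro hy
    exact ⟨ldiv x y, (iff_ldiv h hE).1 hy, h.mul_ldiv x y⟩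

theorem image_r (x : G) : (fun n => mul n x) '' {n | E e n} = {y | E x y} := by
  ext y
  constructor
  · rintro ⟨n, hn, rfl⟩
    have := hE.mul_r x hn
    rwa [h.one_mul] at this
  · intro hy
    exact ⟨rdiv y x, (iff_rdiv h hE).1 hy, h.rdiv_mul x y⟩

theorem closedNormal [TopologicalSpace G] (hcl : IsClosed {n | E e n}) :
    ClosedNormal mul ldiv e {n | E e n} where
  closed := hcl
  one_mem := hE.refl e
  mul_mem := fun x hx y hy => by
    have := hE.mul_l x hy
    rw [h.mul_one] at this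
    exact hE.trans hx this
  inv_mem := fun x hx => by
    have := hE.ldiv_l x hx
    have h1 : ldiv x x = e := by
      have := h.ldiv_mul x e
      rwa [h.mul_one] at this
    rw [h1] at this
    exact hE.symm this
  comm := fun x => by rw [image_l h hE, image_r h hE]
  left := fun x y => by
    have h1 : (fun n => mul x (mul y n)) '' {n | E e n} =
        (fun n => mul x n) '' ((fun n => mul y n) '' {n | E e n}) := by
      rw [image_image]
    rw [h1, image_l h hE y, image_l h hE (mul x y)]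
    ext z
    constructor
    · rintro ⟨n, hn, rfl⟩
      exact hE.mul_l x hn
    · intro hz
      refine ⟨ldiv x z, ?_, h.mul_ldiv x z⟩
      have := hE.ldiv_l x hz
      rwa [h.ldiv_mul] at this
  right := fun x y => by
    have h1 : (fun n => mul (mul n x) y) '' {n | E e n} =
        (fun n => mul n y) '' ((fun n => mul n x) '' {n | E e n}) := by
      rw [image_image]
    rw [h1, image_r h hE x, image_r h hE (mul x y)]
    ext z
    constructor
    · rintro ⟨n, hn, rfl⟩
      exact hE.mul_r y hn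
    · intro hz
      refine ⟨rdiv z y, ?_, h.rdiv_mul y z⟩
      have := hE.rdiv_r y hz
      rwa [h.mul_rdiv] at this

/-- if the class of `e` is trivial, the congruence is trivial -/
theorem triv (ht : {n | E e n} = {e}) {x y : G} (hxy : E x y) : x = y := by
  have h1 := (iff_ldiv h hE).1 hxy
  have h2 : ldiv x y ∈ ({e} : Set G) := ht ▸ h1
  have h3 : ldiv x y = e := h2
  have := h.mul_ldiv x y
  rw [h3, h.mul_one] at this
  exact this

end Cong

end Pool.Agent.TH15.MoufangHaar
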