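import Mathlib
import Pool.Agent.TH15.MoufangHaar.Rel

set_option autoImplicit false
set_option linter.unusedSectionVars false

/-!
# Limit relations of ultrafilters of autotopisms
-/

namespace Pool.Agent.TH15.MoufangHaar

open Topology Filter Set
open Pool.Agent.Helper974.Moufang (IsMoufang)

universe u

section
variable {I : Type*} {G : Type*} [TopologicalSpace G]

/-- the limit relation of the maps `φ i` along `p` -/
def LR (p : Ultrafilter I) (φ : I → G → G) (x w : G) : Prop :=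
  ∀ V ∈ 𝓝 x, ∀ W ∈ 𝓝 w, ∀ᶠ i in (p : Filter I), ∃ x' ∈ V, φ i x' ∈ W

theorem LR_of_tendsto {p : Ultrafilter I} {φ : I → G → G} {x w : G} {s : I → G}
    (h1 : Tendsto s p (𝓝 x)) (h2 : Tendsto (fun i => φ i (s i)) p (𝓝 w)) : LR p φ x w := by
  intro V hV W hW
  filter_upwards [h1 hV, h2 hW] with i hi1 hi2
  exact ⟨s i, hi1, hi2⟩

theorem LR_tot [CompactSpace G] (p : Ultrafilter I) (φ : I → G → G) (x : G) : ∃ w, LR p φ x w := by
  obtain ⟨w, -, hw⟩ := isCompact_univ.ultrafilter_le_nhds (p.map (fun i => φ i x)) (by simp)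
  exact ⟨w, LR_of_tendsto (s := fun _ => x) tendsto_const_nhds hw⟩

theorem LR_sur [CompactSpace G] (p : Ultrafilter I) (φ ψ : I → G → G) (hψ : ∀ i x, φ i (ψ i x) = x)
    (w : G) : ∃ x, LR p φ x w := by
  obtain ⟨x, -, hx⟩ := isCompact_univ.ultrafilter_le_nhds (p.map (fun i => ψ i w)) (by simp)
  refine ⟨x, LR_of_tendsto (s := fun i => ψ i w) hx ?_⟩
  simp only [hψ]
  exact tendsto_const_nhds

theorem LR_closed (p : Ultrafilter I) (φ : I → G → G) : IsClosed {q : G × G | LR p φ q.1 q.2} := by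
  rw [← isOpen_compl_iff, isOpen_iff_mem_nhds]
  rintro ⟨x, w⟩ hxw
  simp only [LR, mem_compl_iff, mem_ofPred_eq, not_forall] at hxw
  obtain ⟨V, hV, W, hW, hn⟩ := hxw
  have : interior V ×ˢ interior W ∈ 𝓝 (x, w) :=
    prod_mem_nhds (interior_mem_nhds.2 hV) (interior_mem_nhds.2 hW)
  filter_upwards [this] with q hq hq2
  refine hn ?_
  exact hq2 V (mem_interior_iff_mem_nhds.1 hq.1) W (mem_interior_iff_mem_nhds.1 hq.2)

/-- the limit relations of maps satisfying `φ3 (a (x, y)) = b (φ1 x, φ2 y)` -/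
theorem LR_op {p : Ultrafilter I} {φ1 φ2 φ3 : I → G → G} {a b : G → G → G}
    (ha : Continuous (fun q : G × G => a q.1 q.2)) (hb : Continuous (fun q : G × G => b q.1 q.2))
    (hφ : ∀ i x y, φ3 i (a x y) = b (φ1 i x) (φ2 i y)) {x w y v : G}
    (h1 : LR p φ1 x w) (h2 : LR p φ2 y v) : LR p φ3 (a x y) (b w v) := by
  intro V hV W hW
  have h3 : (fun q : G × G => a q.1 q.2) ⁻¹' V ∈ 𝓝 (x, y) := ha.continuousAt hV
  have h4 : (fun q : G × G => b q.1 q.2) ⁻¹' W ∈ 𝓝 (w, v) := hb.continuousAt hW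
  rw [nhds_prod_eq, mem_prod_iff] at h3 h4
  obtain ⟨V1, hV1, V2, hV2, hV12⟩ := h3
  obtain ⟨W1, hW1, W2, hW2, hW12⟩ := h4
  filter_upwards [h1 V1 hV1 W1 hW1, h2 V2 hV2 W2 hW2] with i hi1 hi2
  obtain ⟨x', hx', hx2⟩ := hi1
  obtain ⟨y', hy', hy2⟩ := hi2
  refine ⟨a x' y', hV12 (mk_mem_prod hx' hy'), ?_⟩
  rw [hφ]
  exact hW12 (mk_mem_prod hx2 hy2)

/-- a closed condition valid for the maps passes to the limit relation -/
theorem LR_closed_cond {p : Ultrafilter I} {φ : I → G → G} {C : Set (G × G)} (hC : IsClosed C)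
    (hφ : ∀ᶠ i in (p : Filter I), ∀ x, (x, φ i x) ∈ C) {x w : G} (h : LR p φ x w) : (x, w) ∈ C := by
  by_contra hn
  have h1 : Cᶜ ∈ 𝓝 (x, w) := hC.isOpen_compl.mem_nhds hn
  rw [nhds_prod_eq, mem_prod_iff] at h1
  obtain ⟨V, hV, W, hW, hVW⟩ := h1
  obtain ⟨i, hi1, hi2⟩ := (hφ.and (h V hV W hW)).exists
  obtain ⟨x', hx', hx2⟩ := hi2
  exact hVW (mk_mem_prod hx' hx2) (hi1 x')

theorem LR_swap {p : Ultrafilter I} {φ ψ : I → G → G} (h1 : ∀ i x, φ i (ψ i x) = x)
    (h2 : ∀ i x, ψ i (φ i x) = x) {x w : G} : LR p φ x w ↔ LR p ψ w x := by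
  constructor
  · intro h W hW V hV
    filter_upwards [h V hV W hW] with i hi
    obtain ⟨x', hx', hx2⟩ := hi
    exact ⟨φ i x', hx2, by rw [h2]; exact hx'⟩
  · intro h V hV W hW
    filter_upwards [h W hW V hV] with i hi
    obtain ⟨x', hx', hx2⟩ := hi
    exact ⟨ψ i x', hx2, by rw [h1]; exact hx'⟩

/-- if the limit relation is the graph of a continuous map `f`, the maps converge to `f` -/
theorem LR_tendsto [CompactSpace G] [T2Space G] {p : Ultrafilter I} {φ : I → C(G, G)}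
    {f : C(G, G)} (h : ∀ x w, LR p (fun i => φ i) x w → w = f x) : Tendsto φ p (𝓝 f) := by
  rw [ContinuousMap.tendsto_nhds_compactOpen]
  intro K hK U hU hKU
  by_contra hn
  rw [← Ultrafilter.eventually_not] at hn
  have hn' : ∀ᶠ i in (p : Filter I), ∃ x ∈ K, φ i x ∉ U := by
    filter_upwards [hn] with i hi
    simpa [MapsTo] using hi
  classical
  by_cases hKe : K.Nonempty
  · obtain ⟨k0, hk0⟩ := hKe
    let s : I → G := fun i => if hi : ∃ x ∈ K, φ i x ∉ U then hi.choose else k0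
    have hs1 : ∀ i, s i ∈ K := by
      intro i
      by_cases hi : ∃ x ∈ K, φ i x ∉ U
      · simp only [s, dif_pos hi]; exact hi.choose_spec.1
      · simp only [s, dif_neg hi]; exact hk0
    have hs2 : ∀ᶠ i in (p : Filter I), φ i (s i) ∈ Uᶜ := by
      filter_upwards [hn'] with i hi
      simp only [s, dif_pos hi]; exact hi.choose_spec.2
    obtain ⟨x, hxK, hx⟩ := hK.ultrafilter_le_nhds (p.map s)
      (by rw [le_principal_iff]; exact (show ∀ᶠ i in (p : Filter I), s i ∈ K from Filter.Eventually.of_forall hs1))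
    obtain ⟨w, hwU, hw⟩ := (hU.isClosed_compl.isCompact).ultrafilter_le_nhds
      (p.map (fun i => φ i (s i))) (by rw [le_principal_iff]; exact hs2)
    have := h x w (LR_of_tendsto (s := s) hx hw)
    rw [this] at hwU
    exact hwU (hKU hxK)
  · obtain ⟨i, x, hx, -⟩ := hn'.exists
    exact hKe ⟨x, hx⟩

/-- a closed relation on a compact Hausdorff space which is the graph of a map: the map is continuous -/
theorem cont_of_closed_graph [CompactSpace G] [T2Space G] {R : G → G → Prop}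
    (hcl : IsClosed {q : G × G | R q.1 q.2}) (f : G → G) (hf : ∀ x w, R x w ↔ w = f x) :
    Continuous f := by
  rw [continuous_iff_isClosed]
  intro C hC
  have h1 : f ⁻¹' C = Prod.fst '' ({q : G × G | R q.1 q.2} ∩ Prod.snd ⁻¹' C) := by
    ext x
    constructor
    · intro hx
      exact ⟨(x, f x), ⟨(hf x _).2 rfl, hx⟩, rfl⟩
    · rintro ⟨⟨x', w⟩, ⟨h1, h2⟩, rfl⟩
      have := (hf x' w).1 h1
      change f x' ∈ C
      rw [← this]
      exact h2
  rw [h1]
  exact ((hcl.inter (hC.preimage continuous_snd)).isCompact.image continuous_fst).isClosed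

end

end Pool.Agent.TH15.MoufangHaar
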