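import Mathlib
import Pool.Agent.TH15.MoufangHaar.Lim

set_option autoImplicit false
set_option linter.unusedSectionVars false

/-!
# The topological group of autotopisms of a compact loop without small normal subloops
-/

namespace Pool.Agent.TH15.MoufangHaar

open Topology Filter Set
open Pool.Agent.Helper974.Moufang (IsMoufang)

universe u

section
variable {G : Type u} [TopologicalSpace G]

/-- the topology on the homeomorphism group: compact-open topology for the map and its inverse -/
@[reducible] def homeoTop : TopologicalSpace (G ≃ₜ G) :=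
  TopologicalSpace.induced (fun h => ((h : C(G, G)), (h.symm : C(G, G)))) inferInstance

attribute [local instance] homeoTop

theorem homeo_continuous_iff {X : Type*} [TopologicalSpace X] {f : X → G ≃ₜ G} :
    Continuous f ↔ Continuous (fun x => ((f x : G ≃ₜ G) : C(G, G))) ∧
      Continuous (fun x => ((f x).symm : C(G, G))) := by
  rw [continuous_induced_rng]
  constructor
  · intro hf
    exact ⟨continuous_fst.comp hf, continuous_snd.comp hf⟩
  · rintro ⟨h1, h2⟩
    exact h1.prodMk h2

theorem homeo_tendsto_iff {X : Type*} {l : Filter X} {f : X → G ≃ₜ G} {g : G ≃ₜ G} :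
    Tendsto f l (𝓝 g) ↔ Tendsto (fun x => ((f x : G ≃ₜ G) : C(G, G))) l (𝓝 (g : C(G, G))) ∧
      Tendsto (fun x => ((f x).symm : C(G, G))) l (𝓝 (g.symm : C(G, G))) := by
  rw [nhds_induced, tendsto_comap_iff, nhds_prod_eq]
  constructor
  · intro hf
    exact ⟨tendsto_fst.comp hf, tendsto_snd.comp hf⟩
  · rintro ⟨h1, h2⟩
    exact h1.prodMk h2

theorem homeo_cont_coe : Continuous (fun h : G ≃ₜ G => (h : C(G, G))) :=
  (homeo_continuous_iff.1 continuous_id).1

theorem homeo_cont_symm : Continuous (fun h : G ≃ₜ G => (h.symm : C(G, G))) :=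
  (homeo_continuous_iff.1 continuous_id).2

theorem homeo_topGroup [CompactSpace G] [T2Space G] : IsTopologicalGroup (G ≃ₜ G) where
  continuous_mul := by
    rw [homeo_continuous_iff]
    constructor
    · have : (fun x : (G ≃ₜ G) × (G ≃ₜ G) => ((x.1 * x.2 : G ≃ₜ G) : C(G, G))) =
        fun x => (x.1 : C(G, G)).comp (x.2 : C(G, G)) := by
        funext x; ext y; rfl
      rw [this]
      exact (homeo_cont_coe.comp continuous_fst).compCM (homeo_cont_coe.comp continuous_snd)
    · have : (fun x : (G ≃ₜ G) × (G ≃ₜ G) => ((x.1 * x.2 : G ≃ₜ G).symm : C(G, G))) =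
        fun x => (x.2.symm : C(G, G)).comp (x.1.symm : C(G, G)) := by
        funext x; ext y; rfl
      rw [this]
      exact (homeo_cont_symm.comp continuous_snd).compCM (homeo_cont_symm.comp continuous_fst)
  continuous_inv := by
    rw [homeo_continuous_iff]
    exact ⟨homeo_cont_symm, homeo_cont_coe⟩

theorem homeo_t2 [T2Space G] : T2Space (G ≃ₜ G) := by
  have hinj : Function.Injective
      (fun h : G ≃ₜ G => ((h : C(G, G)), (h.symm : C(G, G)))) := by
    intro h k hk
    ext x
    exact DFunLike.congr_fun (congrArg Prod.fst hk) x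
  exact T2Space.of_injective_continuous hinj continuous_induced_dom

attribute [local instance] homeo_topGroup homeo_t2

/-- the group of autotopisms `(α, β, γ)`, `γ (x y) = α x β y`, by homeomorphisms -/
def Atp (mul : G → G → G) : Subgroup ((G ≃ₜ G) × (G ≃ₜ G) × (G ≃ₜ G)) where
  carrier := {g | ∀ x y, g.2.2 (mul x y) = mul (g.1 x) (g.2.1 y)}
  mul_mem' := by
    intro g k hg hk x y
    change g.2.2 (k.2.2 (mul x y)) = mul (g.1 (k.1 x)) (g.2.1 (k.2.1 y))
    rw [hk, hg]
  one_mem' := by
    intro x y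
    rfl
  inv_mem' := by
    intro g hg x y
    change g.2.2.symm (mul x y) = mul (g.1.symm x) (g.2.1.symm y)
    apply g.2.2.injective
    rw [hg]
    simp

theorem Atp_prop {mul : G → G → G} (g : Atp mul) (x y : G) :
    g.1.2.2 (mul x y) = mul (g.1.1 x) (g.1.2.1 y) := g.2 x y

theorem Atp_tendsto_iff {mul : G → G → G} {X : Type*} {l : Filter X} {f : X → Atp mul} {g : Atp mul} :
    Tendsto f l (𝓝 g) ↔ Tendsto (fun x => (f x).1.1) l (𝓝 g.1.1) ∧
      Tendsto (fun x => (f x).1.2.1) l (𝓝 g.1.2.1) ∧ Tendsto (fun x => (f x).1.2.2) l (𝓝 g.1.2.2) := by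
  rw [tendsto_subtype_rng]
  constructor
  · intro h
    have h1 := (continuous_fst.tendsto g.1).comp h
    have h2 := (continuous_snd.tendsto g.1).comp h
    exact ⟨h1, (continuous_fst.tendsto g.1.2).comp h2, (continuous_snd.tendsto g.1.2).comp h2⟩
  · rintro ⟨h1, h2, h3⟩
    exact h1.prodMk_nhds (h2.prodMk_nhds h3)

theorem Atp_continuous_iff {mul : G → G → G} {X : Type*} [TopologicalSpace X] {f : X → Atp mul} :
    Continuous f ↔ Continuous (fun x => (f x).1.1) ∧
      Continuous (fun x => (f x).1.2.1) ∧ Continuous (fun x => (f x).1.2.2) := by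
  constructor
  · intro h
    have h0 := continuous_subtype_val.comp h
    exact ⟨continuous_fst.comp h0, continuous_fst.comp (continuous_snd.comp h0),
      continuous_snd.comp (continuous_snd.comp h0)⟩
  · rintro ⟨h1, h2, h3⟩
    exact (h1.prodMk (h2.prodMk h3)).subtype_mk _

/-- a closed relation which is a bijection gives a homeomorphism -/
theorem homeo_of_rel [CompactSpace G] [T2Space G] {R : G → G → Prop}
    (hcl : IsClosed {q : G × G | R q.1 q.2}) (htot : ∀ x, ∃ w, R x w) (hsur : ∀ w, ∃ x, R x w)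
    (hfun : ∀ x w w', R x w → R x w' → w = w') (hinj : ∀ x x' w, R x w → R x' w → x = x') :
    ∃ H : G ≃ₜ G, (∀ x w, R x w ↔ w = H x) ∧ ∀ x w, R x w ↔ x = H.symm w := by
  choose f hf using htot
  choose g hg using hsur
  have hf2 : ∀ x w, R x w ↔ w = f x := fun x w =>
    ⟨fun h => hfun x _ _ h (hf x), fun h => h ▸ hf x⟩
  have hg2 : ∀ x w, R x w ↔ x = g w := fun x w =>
    ⟨fun h => hinj _ _ w h (hg w), fun h => h ▸ hg w⟩
  have hfc : Continuous f := cont_of_closed_graph hcl f hf2
  have hgc : Continuous g := cont_of_closed_graph (R := fun w x => R x w)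
    (hcl.preimage continuous_swap) g (fun w x => hg2 x w)
  refine ⟨⟨⟨f, g, fun x => ((hg2 x (f x)).1 (hf x)).symm, fun w => ((hf2 (g w) w).1 (hg w)).symm⟩,
    hfc, hgc⟩, hf2, hg2⟩

theorem atp_rel3 [CompactSpace G] [T2Space G] {mul ldiv rdiv : G → G → G} {e : G}
    (h : IsMoufang mul ldiv rdiv e)
    (hm : Continuous (fun p : G × G => mul p.1 p.2)) (hl : Continuous (fun p : G × G => ldiv p.1 p.2))
    (hr : Continuous (fun p : G × G => rdiv p.1 p.2)) (p : Ultrafilter (Atp mul)) :
    Rel3 mul ldiv rdiv (LR p (fun (g : Atp mul) x => g.1.1 x)) (LR p (fun (g : Atp mul) x => g.1.2.1 x))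
      (LR p (fun (g : Atp mul) x => g.1.2.2 x)) where
  tot1 := fun x => LR_tot p _ x
  tot2 := fun x => LR_tot p _ x
  tot3 := fun x => LR_tot p _ x
  sur1 := fun w => LR_sur p _ (fun (g : Atp mul) x => g.1.1.symm x) (fun g x => by simp) w
  sur2 := fun w => LR_sur p _ (fun (g : Atp mul) x => g.1.2.1.symm x) (fun g x => by simp) w
  sur3 := fun w => LR_sur p _ (fun (g : Atp mul) x => g.1.2.2.symm x) (fun g x => by simp) w
  m := fun h1 h2 => LR_op hm hm (fun g x y => Atp_prop g x y) h1 h2
  d1 := fun {z u y v} h1 h2 => LR_op (φ1 := fun (g : Atp mul) x => g.1.2.2 x)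
    (φ2 := fun (g : Atp mul) x => g.1.2.1 x) (φ3 := fun (g : Atp mul) x => g.1.1 x) hr hr
    (fun g x y => by
      have := Atp_prop g (rdiv x y) y
      rw [h.rdiv_mul] at this
      rw [this, h.mul_rdiv]) h1 h2
  d2 := fun {z u x w} h1 h2 => LR_op (φ1 := fun (g : Atp mul) x => g.1.1 x)
    (φ2 := fun (g : Atp mul) x => g.1.2.2 x) (φ3 := fun (g : Atp mul) x => g.1.2.1 x) hl hl
    (fun g x y => by
      have := Atp_prop g x (ldiv x y)
      rw [h.mul_ldiv] at this
      rw [this, h.ldiv_mul]) h2 h1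

/-- the group of autotopisms of a compact loop without small normal subloops is locally compact -/
theorem atp_locallyCompact [CompactSpace G] [T2Space G] {mul ldiv rdiv : G → G → G} {e : G}
    (h : IsMoufang mul ldiv rdiv e)
    (hm : Continuous (fun p : G × G => mul p.1 p.2)) (hl : Continuous (fun p : G × G => ldiv p.1 p.2))
    (hr : Continuous (fun p : G × G => rdiv p.1 p.2)) (hns : NoSmallNormal mul ldiv e) :
    LocallyCompactSpace (Atp mul) := by
  obtain ⟨V, hV, hVN⟩ := hns
  -- the auxiliary closed neighbourhood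
  have hone : ldiv e e = e := by
    have := h.ldiv_mul e e
    rwa [h.one_mul] at this
  have hrone : rdiv e e = e := by
    have := h.mul_rdiv e e
    rwa [h.one_mul] at this
  have c1 : Continuous (fun q : G × G => mul (rdiv e q.1) q.2) :=
    hm.comp ((hr.comp (continuous_const.prodMk continuous_fst)).prodMk continuous_snd)
  have n1 : (fun q : G × G => mul (rdiv e q.1) q.2) ⁻¹' V ∈ 𝓝 (e, e) := by
    refine c1.continuousAt ?_
    change V ∈ 𝓝 (mul (rdiv e e) e)
    rw [hrone, h.mul_one]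
    exact hV
  have n2 : (fun q : G × G => rdiv q.1 q.2) ⁻¹' V ∈ 𝓝 (e, e) := by
    refine hr.continuousAt ?_
    change V ∈ 𝓝 (rdiv e e)
    rw [hrone]
    exact hV
  rw [nhds_prod_eq, mem_prod_iff] at n1 n2
  obtain ⟨A1, hA1, A2, hA2, hA⟩ := n1
  obtain ⟨B1, hB1, B2, hB2, hB⟩ := n2
  obtain ⟨V1, hV1, hV1c, hV1s⟩ := exists_mem_nhds_isClosed_subset
    (inter_mem (inter_mem hA1 hA2) (inter_mem hB1 hB2))
  have q1 : ∀ a ∈ V1, ∀ b ∈ V1, mul (rdiv e a) b ∈ V := fun a ha b hb =>
    hA (mk_mem_prod (hV1s ha).1.1 (hV1s hb).1.2)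
  have q2 : ∀ a ∈ V1, ∀ b ∈ V1, rdiv a b ∈ V := fun a ha b hb =>
    hB (mk_mem_prod (hV1s ha).2.1 (hV1s hb).2.2)
  let K : Set (Atp mul) := {g | ∀ x, ldiv x (g.1.1 x) ∈ V1}
  have hK1 : K ∈ 𝓝 (1 : Atp mul) := by
    let T : C(G, G) → C(G, G) := fun f => ⟨fun x => ldiv x (f x),
      hl.comp (continuous_id.prodMk f.continuous)⟩
    have hT : Continuous T := by
      refine ContinuousMap.continuous_of_continuous_uncurry T ?_
      have : Continuous (fun q : C(G, G) × G => ldiv q.2 (q.1 q.2)) :=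
        hl.comp (continuous_snd.prodMk (continuous_fst.eval continuous_snd))
      exact this
    have hO : IsOpen {f : C(G, G) | MapsTo (T f) univ (interior V1)} :=
      (ContinuousMap.isOpen_setOfPred_mapsTo isCompact_univ isOpen_interior).preimage hT
    have hc : Continuous (fun g : Atp mul => ((g.1.1 : G ≃ₜ G) : C(G, G))) :=
      homeo_cont_coe.comp (continuous_fst.comp continuous_subtype_val)
    have hO2 := hO.preimage hc
    refine mem_of_superset (hO2.mem_nhds ?_) ?_
    · intro x _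
      change ldiv x x ∈ interior V1
      have : ldiv x x = e := by
        have := h.ldiv_mul x e
        rwa [h.mul_one] at this
      rw [this]
      exact mem_interior_iff_mem_nhds.2 hV1
    · intro g hg x
      exact interior_subset (hg (mem_univ x))
  refine IsCompact.locallyCompactSpace_of_mem_nhds_of_group (K := K) (x := 1) ?_ hK1
  rw [isCompact_iff_ultrafilter_le_nhds]
  intro p hp
  have hpK : ∀ᶠ g in (p : Filter (Atp mul)), g ∈ K := by
    rwa [le_principal_iff] at hp
  have hR := atp_rel3 h hm hl hr p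
  set R1 := LR p (fun (g : Atp mul) x => g.1.1 x) with hR1
  set R2 := LR p (fun (g : Atp mul) x => g.1.2.1 x) with hR2
  set R3 := LR p (fun (g : Atp mul) x => g.1.2.2 x) with hR3
  have cond : ∀ {x w}, R1 x w → ldiv x w ∈ V1 := by
    intro x w hxw
    exact LR_closed_cond (C := {q : G × G | ldiv q.1 q.2 ∈ V1}) (hV1c.preimage hl)
      (hpK.mono fun g hg x => hg x) hxw
  -- the target side
  have t1 : {n | ∃ x, R1 x e ∧ R1 x n} = {e} := by
    have hc : IsClosed {n | ∃ x, R1 x e ∧ R1 x n} := by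
      have : {n | ∃ x, R1 x e ∧ R1 x n} = Prod.snd '' ({q : G × G | R1 q.1 e} ∩ {q | R1 q.1 q.2}) := by
        ext n
        constructor
        · rintro ⟨x, a, b⟩
          exact ⟨(x, n), ⟨a, b⟩, rfl⟩
        · rintro ⟨⟨x, n'⟩, ⟨a, b⟩, rfl⟩
          exact ⟨x, a, b⟩
      rw [this]
      have c2 : IsClosed {q : G × G | R1 q.1 e} :=
        (LR_closed p _).preimage (continuous_fst.prodMk continuous_const)
      exact ((c2.inter (LR_closed p _)).isCompact.image continuous_snd).isClosed
    refine hVN _ ((hR.cong h).closedNormal h hc) ?_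
    rintro n ⟨x, a, b⟩
    have := q1 _ (cond a) _ (cond b)
    have e1 : rdiv e (ldiv x e) = x := by
      have := h.mul_rdiv (ldiv x e) x
      rwa [h.mul_ldiv] at this
    rwa [e1, h.mul_ldiv] at this
  have t2 : {n | ∃ w, R1 e w ∧ R1 n w} = {e} := by
    have hc : IsClosed {n | ∃ w, R1 e w ∧ R1 n w} := by
      have : {n | ∃ w, R1 e w ∧ R1 n w} = Prod.fst '' ({q : G × G | R1 e q.2} ∩ {q | R1 q.1 q.2}) := by
        ext n
        constructor
        · rintro ⟨w, a, b⟩
          exact ⟨(n, w), ⟨a, b⟩, rfl⟩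
        · rintro ⟨⟨n', w⟩, ⟨a, b⟩, rfl⟩
          exact ⟨w, a, b⟩
      rw [this]
      have c2 : IsClosed {q : G × G | R1 e q.2} :=
        (LR_closed p _).preimage (continuous_const.prodMk continuous_snd)
      exact ((c2.inter (LR_closed p _)).isCompact.image continuous_fst).isClosed
    refine hVN _ ((hR.inv.cong h).closedNormal h hc) ?_
    rintro n ⟨w, a, b⟩
    have := q2 _ (cond a) _ (cond b)
    have e1 : ldiv e w = w := by
      have := h.ldiv_mul e w
      rwa [h.one_mul] at this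
    have e2 : rdiv w (ldiv n w) = n := by
      have := h.mul_rdiv (ldiv n w) n
      rwa [h.mul_ldiv] at this
    rwa [e1, e2] at this
  have f1 : ∀ x w w', R1 x w → R1 x w' → w = w' := fun x w w' a b =>
    (hR.cong h).triv h t1 ⟨x, a, b⟩
  have f3 : ∀ x w w', R3 x w → R3 x w' → w = w' := fun x w w' a b =>
    (hR.cong h).triv h t1 ((hR.e13 h).2 ⟨x, a, b⟩)
  have f2 : ∀ x w w', R2 x w → R2 x w' → w = w' := fun x w w' a b =>
    (hR.cong h).triv h t1 ((hR.e13 h).2 ((hR.e23 h).1 ⟨x, a, b⟩))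
  have g1 : ∀ x x' w, R1 x w → R1 x' w → x = x' := fun x x' w a b =>
    (hR.inv.cong h).triv h t2 ⟨w, a, b⟩
  have g3 : ∀ x x' w, R3 x w → R3 x' w → x = x' := fun x x' w a b =>
    (hR.inv.cong h).triv h t2 ((hR.inv.e13 h).2 ⟨w, a, b⟩)
  have g2 : ∀ x x' w, R2 x w → R2 x' w → x = x' := fun x x' w a b =>
    (hR.inv.cong h).triv h t2 ((hR.inv.e13 h).2 ((hR.inv.e23 h).1 ⟨w, a, b⟩))
  obtain ⟨H1, h11, h12⟩ := homeo_of_rel (LR_closed p _) hR.tot1 hR.sur1 f1 g1
  obtain ⟨H2, h21, h22⟩ := homeo_of_rel (LR_closed p _) hR.tot2 hR.sur2 f2 g2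
  obtain ⟨H3, h31, h32⟩ := homeo_of_rel (LR_closed p _) hR.tot3 hR.sur3 f3 g3
  have hprop : ∀ x y, H3 (mul x y) = mul (H1 x) (H2 y) := fun x y =>
    ((h31 _ _).1 (hR.m ((h11 x _).2 rfl) ((h21 y _).2 rfl))).symm
  refine ⟨⟨(H1, H2, H3), hprop⟩, ?_, ?_⟩
  · intro x
    exact cond ((h11 x _).2 rfl)
  · have key : ∀ (q : Atp mul → G ≃ₜ G) (H : G ≃ₜ G),
        (∀ x w, LR p (fun g x => q g x) x w ↔ w = H x) →
        (∀ x w, LR p (fun g x => q g x) x w ↔ x = H.symm w) → Tendsto q p (𝓝 H) := by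
      intro q H a b
      rw [homeo_tendsto_iff]
      constructor
      · exact LR_tendsto (φ := fun g => ((q g : G ≃ₜ G) : C(G, G))) (f := (H : C(G, G)))
          (fun x w hxw => (a x w).1 hxw)
      · refine LR_tendsto (φ := fun g => ((q g).symm : C(G, G))) (f := (H.symm : C(G, G)))
          (fun x w hxw => ?_)
        refine (b w x).1 ?_
        exact (LR_swap (φ := fun g x => q g x) (ψ := fun g x => (q g).symm x)
          (fun g x => by simp) (fun g x => by simp)).2 hxw
    have := (Atp_tendsto_iff (l := (p : Filter (Atp mul))) (f := fun g => g)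
      (g := ⟨(H1, H2, H3), hprop⟩)).2
      ⟨key (fun g => g.1.1) H1 h11 h12, key (fun g => g.1.2.1) H2 h21 h22,
        key (fun g => g.1.2.2) H3 h31 h32⟩
    exact this

end

end Pool.Agent.TH15.MoufangHaar
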