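import Mathlib
import Pool.Agent.TH15.MoufangHaar.Atp
import Pool.Agent.H100R2.MH.Main
import Pool.Agent.H100R2.MH.P.T02

set_option autoImplicit false
set_option linter.unusedSectionVars false

/-!
# Invariant integral on a compact Moufang loop without small normal subloops
-/

namespace Pool.Agent.TH15.MoufangHaar

open Topology Filter Set MeasureTheory
open scoped Pointwise
open Pool.Agent.Helper974.Moufang (IsMoufang)
open Pool.Agent.H100R2.MH (St XX NS Ps AmenOn)

universe u

section
variable {G : Type u} [TopologicalSpace G]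

attribute [local instance] homeoTop homeo_topGroup homeo_t2

/-- a homeomorphism from a family of continuous maps with continuous inverses -/
theorem cont_family [CompactSpace G] [T2Space G] (H : G → G ≃ₜ G)
    (h1 : Continuous (fun q : G × G => H q.1 q.2)) (h2 : Continuous (fun q : G × G => (H q.1).symm q.2)) :
    Continuous H := by
  rw [homeo_continuous_iff]
  constructor
  · exact ContinuousMap.continuous_of_continuous_uncurry _ h1
  · exact ContinuousMap.continuous_of_continuous_uncurry _ h2

variable [CompactSpace G] [T2Space G] {mul ldiv rdiv : G → G → G} {e : G}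
  (h : IsMoufang mul ldiv rdiv e)
  (hm : Continuous (fun p : G × G => mul p.1 p.2)) (hl : Continuous (fun p : G × G => ldiv p.1 p.2))
  (hr : Continuous (fun p : G × G => rdiv p.1 p.2))
include h hm hl hr

theorem exists_k : ∃ k : G → Atp mul, Continuous k ∧ k e = 1 ∧ ∀ a x, (k a).1.1 x = mul a x := by
  let HL : G → G ≃ₜ G := fun a => ⟨⟨mul a, ldiv a, fun x => h.ldiv_mul a x, fun x => h.mul_ldiv a x⟩,
    hm.comp (continuous_const.prodMk continuous_id), hl.comp (continuous_const.prodMk continuous_id)⟩
  let HR : G → G ≃ₜ G := fun a => ⟨⟨fun x => mul x a, fun x => rdiv x a, fun x => h.mul_rdiv a x,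
    fun x => h.rdiv_mul a x⟩,
    hm.comp (continuous_id.prodMk continuous_const), hr.comp (continuous_id.prodMk continuous_const)⟩
  let HM : G → G ≃ₜ G := fun a => (HR a).trans (HL a)
  have cL : Continuous HL := cont_family HL hm hl
  have cR : Continuous HR := cont_family HR (hm.comp (continuous_snd.prodMk continuous_fst))
    (hr.comp (continuous_snd.prodMk continuous_fst))
  have cM : Continuous HM := by
    have : HM = fun a => HL a * HR a := rfl
    rw [this]
    exact cL.mul cR
  have hprop : ∀ a x y, HM a (mul x y) = mul (HL a x) (HR a y) := by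
    intro a x y
    change mul a (mul (mul x y) a) = mul (mul a x) (mul y a)
    exact (h.middle_m a x y).symm
  refine ⟨fun a => ⟨(HL a, HR a, HM a), hprop a⟩, ?_, ?_, fun a x => rfl⟩
  · exact Atp_continuous_iff.2 ⟨cL, cR, cM⟩
  · apply Subtype.ext
    refine Prod.ext ?_ (Prod.ext ?_ ?_)
    · ext x; exact h.one_mul x
    · ext x; exact h.mul_one x
    · ext x
      change mul e (mul x e) = x
      rw [h.mul_one, h.one_mul]

theorem ns_univ (hlc : LocallyCompactSpace (Atp mul)) :
    ∃ ν ∈ St G, ∃ ε : ℝ, 0 < ε ∧ NS mul ν ε = univ := by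
  obtain ⟨k, hkc, hk1, hk⟩ := exists_k h hm hl hr
  let _ : MeasurableSpace (Atp mul) := borel _
  have : BorelSpace (Atp mul) := ⟨rfl⟩
  obtain ⟨W0, hW0c, hW0n⟩ := exists_compact_mem_nhds (1 : Atp mul)
  let W : Set (Atp mul) := range k * W0
  have hWc : IsCompact W := (isCompact_range hkc).mul hW0c
  have hW0W : W0 ⊆ W := by
    intro g hg
    exact ⟨k e, ⟨e, rfl⟩, g, hg, by simp [hk1]⟩
  let μ : Measure (Atp mul) := Measure.haar
  have hWfin : μ W ≠ ⊤ := hWc.measure_ne_top
  have hW0fin : μ W0 ≠ ⊤ := hW0c.measure_ne_top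
  have hW0pos : 0 < μ.real W0 := by
    rw [measureReal_def]
    exact ENNReal.toReal_pos (MeasureTheory.Measure.measure_pos_of_mem_nhds μ hW0n).ne' hW0fin
  have hWpos : 0 < μ.real W := lt_of_lt_of_le hW0pos (measureReal_mono hW0W hWfin)
  let o : Atp mul → G := fun g => g.1.1 e
  have ho : Continuous o := by
    have : Continuous (fun g : Atp mul => ((g.1.1 : G ≃ₜ G) : C(G, G))) :=
      homeo_cont_coe.comp (continuous_fst.comp continuous_subtype_val)
    exact this.eval continuous_const
  have hok : ∀ a g, o (k a * g) = mul a (o g) := by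
    intro a g
    change (k a).1.1 (g.1.1 e) = _
    rw [hk]
  have hint : ∀ (F : Atp mul → ℝ), Continuous F → ∀ C : Set (Atp mul), IsCompact C →
      IntegrableOn F C μ := fun F hF C hC => hF.continuousOn.integrableOn_compact hC
  have hFo : ∀ f : C(G, ℝ), Continuous (fun g => f (o g)) := fun f => f.continuous.comp ho
  let c : ℝ := (μ.real W)⁻¹
  have hc : 0 < c := inv_pos.2 hWpos
  let ν : XX G := fun f => c * ∫ g in W, f (o g) ∂μ
  have hν : ν ∈ St G := by
    refine ⟨?_, ?_, ?_, ?_⟩
    · intro f g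
      change c * ∫ x in W, (f + g) (o x) ∂μ = c * ∫ x in W, f (o x) ∂μ + c * ∫ x in W, g (o x) ∂μ
      rw [← mul_add, ← integral_add (hint _ (hFo f) W hWc) (hint _ (hFo g) W hWc)]
      rfl
    · intro r f
      change c * ∫ x in W, (r • f) (o x) ∂μ = r * (c * ∫ x in W, f (o x) ∂μ)
      have : (fun x => (r • f) (o x)) = fun x => r * f (o x) := by
        funext x; simp
      rw [this, integral_const_mul]
      ring
    · change c * ∫ x in W, (1 : C(G, ℝ)) (o x) ∂μ = 1
      simp only [ContinuousMap.one_apply, integral_const, smul_eq_mul, mul_one]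
      rw [measureReal_restrict_apply_univ]
      exact inv_mul_cancel₀ hWpos.ne'
    · intro f hf
      exact mul_nonneg hc.le (integral_nonneg fun x => hf _)
  refine ⟨ν, hν, c * μ.real W0, mul_pos hc hW0pos, ?_⟩
  rw [eq_univ_iff_forall]
  intro a
  let Wa : Set (Atp mul) := (fun g => k a * g) '' W0
  have hWa : Wa ⊆ W := by
    rintro _ ⟨g, hg, rfl⟩
    exact ⟨k a, ⟨a, rfl⟩, g, hg, rfl⟩
  have hWac : IsCompact Wa := hW0c.image (continuous_const.mul continuous_id)
  have htr : ∀ F : Atp mul → ℝ, ∫ g in Wa, F g ∂μ = ∫ g in W0, F (k a * g) ∂μ := fun F =>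
    (measurePreserving_mul_left μ (k a)).setIntegral_image_emb (measurableEmbedding_mulLeft (k a)) F W0
  refine ⟨fun f => c * ∫ g in Wa, f (o g) ∂μ, ⟨?_, ?_, ?_⟩, ?_, ?_, ?_⟩
  · intro f g
    change c * ∫ x in Wa, (f + g) (o x) ∂μ = c * ∫ x in Wa, f (o x) ∂μ + c * ∫ x in Wa, g (o x) ∂μ
    rw [← mul_add, ← integral_add (hint _ (hFo f) Wa hWac) (hint _ (hFo g) Wa hWac)]
    rfl
  · intro r f
    change c * ∫ x in Wa, (r • f) (o x) ∂μ = r * (c * ∫ x in Wa, f (o x) ∂μ)
    have : (fun x => (r • f) (o x)) = fun x => r * f (o x) := by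
      funext x; simp
    rw [this, integral_const_mul]
    ring
  · intro f hf
    exact mul_nonneg hc.le (integral_nonneg fun x => hf _)
  · intro f hf
    refine mul_le_mul_of_nonneg_left ?_ hc.le
    exact setIntegral_mono_set (hint _ (hFo f) W hWc) (Eventually.of_forall fun x => hf _)
      hWa.eventuallyLE
  · intro f g hf hfg
    change c * ∫ x in Wa, f (o x) ∂μ ≤ c * ∫ x in W, g (o x) ∂μ
    refine mul_le_mul_of_nonneg_left ?_ hc.le
    rw [htr]
    have : ∫ x in W0, f (o (k a * x)) ∂μ = ∫ x in W0, g (o x) ∂μ := by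
      congr 1
      funext x
      rw [hok, hfg]
    rw [this]
    refine setIntegral_mono_set (hint _ (hFo g) W hWc) (Eventually.of_forall fun x => ?_)
      hW0W.eventuallyLE
    change 0 ≤ g (o x)
    rw [hfg]
    exact hf _
  · change c * μ.real W0 ≤ c * ∫ x in Wa, (1 : C(G, ℝ)) (o x) ∂μ
    rw [htr]
    simp only [ContinuousMap.one_apply, integral_const, smul_eq_mul, mul_one]
    rw [measureReal_restrict_apply_univ]

theorem amen_of_noSmallNormal (hns : NoSmallNormal mul ldiv e) : AmenOn mul (univ : Set G) := by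
  obtain ⟨ν, hν, ε, hε, hN⟩ := ns_univ h hm hl hr (atp_locallyCompact h hm hl hr hns)
  refine Pool.Agent.H100R2.MH.p35 Pool.Agent.H100R2.MH.t02 G mul ldiv rdiv e h hm hl hr ν hν ?_
  intro A _ hA _
  have := hA ε hε
  rw [hN] at this
  exact univ_subset_iff.1 this

end

end Pool.Agent.TH15.MoufangHaar
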