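import Mathlib
import Pool.Agent.TH15.MoufangHaar.Haar

set_option autoImplicit false
set_option linter.unusedSectionVars false

/-!
# Quotients by closed normal subloops
-/

namespace Pool.Agent.TH15.MoufangHaar

open Topology Filter Set
open Pool.Agent.Helper974.Moufang (IsMoufang)
open Pool.Agent.H100R2.MH (St XX NS Ps AmenOn)

universe u

section
variable {G : Type u} [TopologicalSpace G] {mul ldiv rdiv : G → G → G} {e : G}
  (h : IsMoufang mul ldiv rdiv e)

include h in
theorem ldiv_self (x : G) : ldiv x x = e := by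
  have := h.ldiv_mul x e
  rwa [h.mul_one] at this

include h in
theorem ldiv_eq (x y : G) : ldiv x y = mul (ldiv x e) y := by
  apply h.lcan (x := x)
  rw [h.mul_ldiv, h.lip']

variable {N : Set G} (hN : ClosedNormal mul ldiv e N)

include h hN in
theorem CN_ldiv_mem {x y : G} (hx : x ∈ N) (hy : y ∈ N) : ldiv x y ∈ N := by
  rw [ldiv_eq h]
  exact hN.mul_mem _ (hN.inv_mem _ hx) _ hy

include h hN in
theorem CN_absorb (x : G) {m : G} (hm : m ∈ N) {z : G} :
    ldiv (mul x m) z ∈ N ↔ ldiv x z ∈ N := by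
  have hl := hN.left x m
  constructor
  · intro hz
    have : z ∈ (fun n => mul (mul x m) n) '' N := ⟨_, hz, h.mul_ldiv _ _⟩
    rw [← hl] at this
    obtain ⟨n, hn, rfl⟩ := this
    change ldiv x (mul x (mul m n)) ∈ N
    rw [h.ldiv_mul]
    exact hN.mul_mem _ hm _ hn
  · intro hz
    have : z ∈ (fun n => mul x (mul m n)) '' N := by
      refine ⟨ldiv m (ldiv x z), CN_ldiv_mem h hN hm hz, ?_⟩
      change mul x (mul m (ldiv m (ldiv x z))) = z
      rw [h.mul_ldiv, h.mul_ldiv]
    rw [hl] at this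
    obtain ⟨n, hn, rfl⟩ := this
    change ldiv (mul x m) (mul (mul x m) n) ∈ N
    rw [h.ldiv_mul]
    exact hn

include h hN in
theorem CN_right_iff (x z : G) : ldiv x z ∈ N ↔ rdiv z x ∈ N := by
  have hc := hN.comm x
  constructor
  · intro hz
    have : z ∈ (fun n => mul x n) '' N := ⟨_, hz, h.mul_ldiv _ _⟩
    rw [hc] at this
    obtain ⟨n, hn, rfl⟩ := this
    change rdiv (mul n x) x ∈ N
    rw [h.mul_rdiv]
    exact hn
  · intro hz
    have : z ∈ (fun n => mul n x) '' N := ⟨_, hz, h.rdiv_mul _ _⟩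
    rw [← hc] at this
    obtain ⟨n, hn, rfl⟩ := this
    change ldiv x (mul x n) ∈ N
    rw [h.ldiv_mul]
    exact hn

include h hN in
/-- the congruence of a closed normal subloop -/
theorem CN_cong : Cong mul ldiv rdiv (fun x y => ldiv x y ∈ N) where
  refl := fun x => by
    rw [ldiv_self h]
    exact hN.one_mem
  symm := by
    intro x y hxy
    have h1 := CN_absorb h hN x hxy (z := x)
    rw [h.mul_ldiv, ldiv_self h] at h1
    exact h1.2 hN.one_mem
  trans := by
    intro x y z hxy hyz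
    have h1 := CN_absorb h hN x hxy (z := z)
    rw [h.mul_ldiv] at h1
    exact h1.1 hyz
  mul_l := by
    intro x y z hxy
    have hl := hN.left z x
    have : mul z y ∈ (fun n => mul z (mul x n)) '' N := by
      refine ⟨_, hxy, ?_⟩
      change mul z (mul x (ldiv x y)) = _
      rw [h.mul_ldiv]
    rw [hl] at this
    obtain ⟨n, hn, hn2⟩ := this
    rw [← hn2]
    change ldiv (mul z x) (mul (mul z x) n) ∈ N
    rw [h.ldiv_mul]
    exact hn
  mul_r := by
    intro x y z hxy
    have hr := hN.right x z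
    have hxy' := (CN_right_iff h hN x y).1 hxy
    have : mul y z ∈ (fun n => mul (mul n x) z) '' N := by
      refine ⟨_, hxy', ?_⟩
      change mul (mul (rdiv y x) x) z = _
      rw [h.rdiv_mul]
    rw [hr] at this
    obtain ⟨n, hn, hn2⟩ := this
    rw [CN_right_iff h hN, ← hn2]
    change rdiv (mul n (mul x z)) (mul x z) ∈ N
    rw [h.mul_rdiv]
    exact hn
  ldiv_l := by
    intro x y z hxy
    have hl := hN.left z (ldiv z x)
    have : y ∈ (fun n => mul (mul z (ldiv z x)) n) '' N := by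
      refine ⟨_, hxy, ?_⟩
      change mul (mul z (ldiv z x)) (ldiv x y) = y
      rw [h.mul_ldiv, h.mul_ldiv]
    rw [← hl] at this
    obtain ⟨n, hn, hn2⟩ := this
    rw [← hn2]
    change ldiv (ldiv z x) (ldiv z (mul z (mul (ldiv z x) n))) ∈ N
    rw [h.ldiv_mul, h.ldiv_mul]
    exact hn
  rdiv_r := by
    intro x y z hxy
    have hr := hN.right (rdiv x z) z
    have hxy' := (CN_right_iff h hN x y).1 hxy
    have : y ∈ (fun n => mul n (mul (rdiv x z) z)) '' N := by
      refine ⟨_, hxy', ?_⟩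
      change mul (rdiv y x) (mul (rdiv x z) z) = y
      rw [h.rdiv_mul, h.rdiv_mul]
    rw [← hr] at this
    obtain ⟨n, hn, hn2⟩ := this
    rw [CN_right_iff h hN, ← hn2]
    change rdiv (rdiv (mul (mul n (rdiv x z)) z) z) (rdiv x z) ∈ N
    rw [h.mul_rdiv, h.mul_rdiv]
    exact hn

include h hN in
theorem CN_mem (n : G) : ldiv e n ∈ N ↔ n ∈ N := by
  have := h.ldiv_mul e n
  rw [h.one_mul] at this
  rw [this]

end

namespace Cong

section
variable {G : Type u} {mul ldiv rdiv : G → G → G} {e : G}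
  (h : IsMoufang mul ldiv rdiv e) {E : G → G → Prop} (hE : Cong mul ldiv rdiv E)
include h hE

theorem mul2 {x x' y y' : G} (a : E x x') (b : E y y') : E (mul x y) (mul x' y') :=
  hE.trans (hE.mul_r y a) (hE.mul_l x' b)

theorem ldiv_r {x x' : G} (y : G) (a : E x x') : E (ldiv x y) (ldiv x' y) := by
  have h1 := hE.mul_r (ldiv x y) a
  rw [h.mul_ldiv] at h1
  have h2 := hE.ldiv_l x' h1
  rw [h.ldiv_mul] at h2
  exact hE.symm h2

theorem rdiv_l {y y' : G} (x : G) (a : E y y') : E (rdiv x y) (rdiv x y') := by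
  have h1 := hE.mul_l (rdiv x y) a
  rw [h.rdiv_mul] at h1
  have h2 := hE.rdiv_r y' h1
  rw [h.mul_rdiv] at h2
  exact hE.symm h2

theorem ldiv2 {x x' y y' : G} (a : E x x') (b : E y y') : E (ldiv x y) (ldiv x' y') :=
  hE.trans (ldiv_r h hE y a) (hE.ldiv_l x' b)

theorem rdiv2 {x x' y y' : G} (a : E x x') (b : E y y') : E (rdiv x y) (rdiv x' y') :=
  hE.trans (hE.rdiv_r y a) (rdiv_l h hE x' b)

end

end Cong

section
variable {G : Type u} [TopologicalSpace G] {mul ldiv rdiv : G → G → G} {e : G}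

/-- pull back of a congruence -/
theorem Cong.comap {H : Type*} {mul' ldiv' rdiv' : H → H → H} {E : H → H → Prop}
    (hE : Cong mul' ldiv' rdiv' E) (f : G → H) (h1 : ∀ x y, f (mul x y) = mul' (f x) (f y))
    (h2 : ∀ x y, f (ldiv x y) = ldiv' (f x) (f y)) (h3 : ∀ x y, f (rdiv x y) = rdiv' (f x) (f y)) :
    Cong mul ldiv rdiv (fun x y => E (f x) (f y)) where
  refl := fun x => hE.refl _
  symm := fun a => hE.symm a
  trans := fun a b => hE.trans a b
  mul_r := fun z a => by rw [h1, h1]; exact hE.mul_r _ a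
  mul_l := fun z a => by rw [h1, h1]; exact hE.mul_l _ a
  ldiv_l := fun z a => by rw [h2, h2]; exact hE.ldiv_l _ a
  rdiv_r := fun z a => by rw [h3, h3]; exact hE.rdiv_r _ a

/-- **Quotient**: a closed normal subloop `M` which is isolated from above is the kernel of a continuous
homomorphism onto a compact Moufang loop without small normal subloops; hence there is a state of `C(G)`
invariant on the functions that factor through the quotient -/
theorem quot_data [CompactSpace G] [T2Space G] (h : IsMoufang mul ldiv rdiv e)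
    (hm : Continuous (fun p : G × G => mul p.1 p.2)) (hl : Continuous (fun p : G × G => ldiv p.1 p.2))
    (hr : Continuous (fun p : G × G => rdiv p.1 p.2)) {M : Set G} (hM : ClosedNormal mul ldiv e M) :
    ∃ (Q : Type u) (_ : TopologicalSpace Q) (_ : CompactSpace Q) (_ : T2Space Q)
      (mul' ldiv' rdiv' : Q → Q → Q) (π : G → Q), IsMoufang mul' ldiv' rdiv' (π e) ∧
      Continuous (fun p : Q × Q => mul' p.1 p.2) ∧ Continuous (fun p : Q × Q => ldiv' p.1 p.2) ∧
      Continuous (fun p : Q × Q => rdiv' p.1 p.2) ∧ Continuous π ∧ IsOpenMap π ∧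
      Function.Surjective π ∧ (∀ x y, π (mul x y) = mul' (π x) (π y)) ∧
      (∀ x y, π (ldiv x y) = ldiv' (π x) (π y)) ∧ (∀ x y, π (rdiv x y) = rdiv' (π x) (π y)) ∧
      ∀ x y, π x = π y ↔ ldiv x y ∈ M := by
  have hC := CN_cong h hM
  let s : Setoid G := ⟨fun x y => ldiv x y ∈ M, ⟨hC.refl, hC.symm, hC.trans⟩⟩
  let π : G → Quotient s := Quotient.mk s
  have hπs : Function.Surjective π := Quotient.mk_surjective
  have hπc : Continuous π := continuous_quotient_mk'
  have hπe : ∀ x y, π x = π y ↔ ldiv x y ∈ M := fun x y => Quotient.eq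
  have hπo : IsOpenMap π := by
    intro U hU
    have : π ⁻¹' (π '' U) = ⋃ m ∈ M, (fun y => rdiv y m) ⁻¹' U := by
      ext y
      simp only [mem_preimage, mem_image, mem_iUnion, exists_prop]
      constructor
      · rintro ⟨x, hx, hxy⟩
        refine ⟨ldiv x y, (hπe x y).1 hxy, ?_⟩
        have := h.mul_rdiv (ldiv x y) x
        rw [h.mul_ldiv] at this
        rw [this]
        exact hx
      · rintro ⟨m, hm', hy⟩
        refine ⟨_, hy, (hπe _ _).2 ?_⟩
        have h1 : ldiv (rdiv y m) y = m := by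
          have := h.ldiv_mul (rdiv y m) m
          rwa [h.rdiv_mul] at this
        rw [h1]
        exact hm'
    have h2 : IsOpen (π ⁻¹' (π '' U)) := by
      rw [this]
      exact isOpen_biUnion fun m _ => hU.preimage (hr.comp (continuous_id.prodMk continuous_const))
    exact (isQuotientMap_quotient_mk'.isOpen_preimage).1 h2
  have hoq : IsOpenQuotientMap π := ⟨hπs, hπc, hπo⟩
  have hcl : IsClosed {q : G × G | π q.1 = π q.2} := by
    have : {q : G × G | π q.1 = π q.2} = (fun q : G × G => ldiv q.1 q.2) ⁻¹' M := by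
      ext q
      exact hπe q.1 q.2
    rw [this]
    exact hM.closed.preimage hl
  have ht2 : T2Space (Quotient s) := (t2Space_iff_of_isOpenQuotientMap hoq).2 hcl
  let mul' : Quotient s → Quotient s → Quotient s :=
    Quotient.map₂ mul (fun _ _ a _ _ b => Cong.mul2 h hC a b)
  let ldiv' : Quotient s → Quotient s → Quotient s :=
    Quotient.map₂ ldiv (fun _ _ a _ _ b => Cong.ldiv2 h hC a b)
  let rdiv' : Quotient s → Quotient s → Quotient s :=
    Quotient.map₂ rdiv (fun _ _ a _ _ b => Cong.rdiv2 h hC a b)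
  have hmul' : ∀ x y, π (mul x y) = mul' (π x) (π y) := fun _ _ => rfl
  have hldiv' : ∀ x y, π (ldiv x y) = ldiv' (π x) (π y) := fun _ _ => rfl
  have hrdiv' : ∀ x y, π (rdiv x y) = rdiv' (π x) (π y) := fun _ _ => rfl
  have cont : ∀ (op : G → G → G) (op' : Quotient s → Quotient s → Quotient s),
      Continuous (fun p : G × G => op p.1 p.2) → (∀ x y, π (op x y) = op' (π x) (π y)) →
      Continuous (fun p : Quotient s × Quotient s => op' p.1 p.2) := by
    intro op op' hop hop'
    rw [← (hoq.prodMap hoq).continuous_comp_iff]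
    have : (fun p : Quotient s × Quotient s => op' p.1 p.2) ∘ Prod.map π π =
        fun p : G × G => π (op p.1 p.2) := by
      funext p
      exact (hop' p.1 p.2).symm
    rw [this]
    exact hπc.comp hop
  refine ⟨Quotient s, inferInstance, inferInstance, ht2, mul', ldiv', rdiv', π, ?_,
    cont mul mul' hm hmul', cont ldiv ldiv' hl hldiv', cont rdiv rdiv' hr hrdiv', hπc, hπo, hπs,
    hmul', hldiv', hrdiv', hπe⟩
  refine ⟨?_, ?_, ?_, ?_, ?_, ?_, ?_⟩
  · intro x
    obtain ⟨x, rfl⟩ := hπs x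
    rw [← hmul', h.one_mul]
  · intro x
    obtain ⟨x, rfl⟩ := hπs x
    rw [← hmul', h.mul_one]
  · intro x y
    obtain ⟨x, rfl⟩ := hπs x
    obtain ⟨y, rfl⟩ := hπs y
    rw [← hldiv', ← hmul', h.mul_ldiv]
  · intro x y
    obtain ⟨x, rfl⟩ := hπs x
    obtain ⟨y, rfl⟩ := hπs y
    rw [← hmul', ← hldiv', h.ldiv_mul]
  · intro x y
    obtain ⟨x, rfl⟩ := hπs x
    obtain ⟨y, rfl⟩ := hπs y
    rw [← hrdiv', ← hmul', h.rdiv_mul]
  · intro x y
    obtain ⟨x, rfl⟩ := hπs x
    obtain ⟨y, rfl⟩ := hπs y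
    rw [← hmul', ← hrdiv', h.mul_rdiv]
  · intro x y z
    obtain ⟨x, rfl⟩ := hπs x
    obtain ⟨y, rfl⟩ := hπs y
    obtain ⟨z, rfl⟩ := hπs z
    simp only [← hmul']
    rw [h.moufang]

end

end Pool.Agent.TH15.MoufangHaar
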