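import Mathlib
import Pool.Agent.TH15.MoufangHaar.Quot
import Pool.Agent.H100R2.MH.P.T01

set_option autoImplicit false
set_option linter.unusedSectionVars false

/-!
# States from quotients
-/

namespace Pool.Agent.TH15.MoufangHaar

open Topology Filter Set
open Pool.Agent.Helper974.Moufang (IsMoufang)
open Pool.Agent.H100R2.MH (St XX NS Ps AmenOn)

universe u

section
variable {G : Type u} [TopologicalSpace G]

theorem envelope [CompactSpace G] {Q : Type u} [TopologicalSpace Q] [T2Space Q]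
    {π : G → Q} (hc : Continuous π) (ho : IsOpenMap π) (hs : Function.Surjective π) (f : C(G, ℝ)) :
    ∃ k : C(Q, ℝ), ∀ x, ∃ y, π y = π x ∧ k (π x) = f y := by
  have hcomp : ∀ q : Q, IsCompact (π ⁻¹' {q}) := fun q => (isClosed_singleton.preimage hc).isCompact
  have hne : ∀ q : Q, (π ⁻¹' {q}).Nonempty := fun q => by
    obtain ⟨x, hx⟩ := hs q
    exact ⟨x, hx⟩
  have hmax : ∀ q : Q, ∃ y ∈ π ⁻¹' {q}, ∀ x ∈ π ⁻¹' {q}, f x ≤ f y := fun q =>
    (hcomp q).exists_isMaxOn (hne q) f.continuous.continuousOn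
  choose m hm1 hm2 using hmax
  have hlow : LowerSemicontinuous (fun q => f (m q)) := by
    rw [lowerSemicontinuous_iff_isOpen_preimage]
    intro c
    have : (fun q => f (m q)) ⁻¹' Ioi c = π '' (f ⁻¹' Ioi c) := by
      ext q
      constructor
      · intro hq
        exact ⟨m q, hq, hm1 q⟩
      · rintro ⟨x, hx, rfl⟩
        exact lt_of_lt_of_le (show c < f x from hx) (hm2 (π x) x rfl)
    rw [this]
    exact ho _ (isOpen_Ioi.preimage f.continuous)
  have hup : UpperSemicontinuous (fun q => f (m q)) := by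
    rw [upperSemicontinuous_iff_isClosed_preimage]
    intro c
    have : (fun q => f (m q)) ⁻¹' Ici c = π '' (f ⁻¹' Ici c) := by
      ext q
      constructor
      · intro hq
        exact ⟨m q, hq, hm1 q⟩
      · rintro ⟨x, hx, rfl⟩
        exact le_trans (show c ≤ f x from hx) (hm2 (π x) x rfl)
    rw [this]
    exact ((isClosed_Ici.preimage f.continuous).isCompact.image hc).isClosed
  refine ⟨⟨fun q => f (m q), continuous_iff_lower_upperSemicontinuous.2 ⟨hlow, hup⟩⟩, fun x => ?_⟩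
  exact ⟨m (π x), hm1 (π x), rfl⟩

theorem state_mono {P : XX G} (hP : P ∈ St G) {f g : C(G, ℝ)} {ε : ℝ} (hfg : ∀ x, |f x - g x| ≤ ε) :
    |P f - P g| ≤ ε := by
  obtain ⟨h1, h2, h3, h4⟩ := hP
  have key : ∀ f g : C(G, ℝ), (∀ x, |f x - g x| ≤ ε) → P f - P g ≤ ε := by
    intro f g hfg
    have hp := h4 (ε • (1 : C(G, ℝ)) + ((-1 : ℝ) • f + g)) (fun x => by
      have := (abs_le.1 (hfg x)).2
      simp only [ContinuousMap.add_apply, ContinuousMap.smul_apply, ContinuousMap.one_apply,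
        smul_eq_mul]
      linarith)
    rw [h1, h1, h2, h2, h3] at hp
    linarith
  rw [abs_le]
  constructor
  · have := key g f (fun x => by rw [abs_sub_comm]; exact hfg x)
    linarith
  · exact key f g hfg

/-- extension of a state of `C(Q)` to `C(G)` -/
theorem state_extend [CompactSpace G] {Q : Type u} [TopologicalSpace Q]
    {π : G → Q} (hc : Continuous π) (hs : Function.Surjective π) {p : XX Q} (hp : p ∈ St Q) :
    ∃ P ∈ St G, ∀ k : C(Q, ℝ), P (k.comp ⟨π, hc⟩) = p k := by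
  obtain ⟨h1, h2, h3, h4⟩ := hp
  let c : C(Q, ℝ) →ₗ[ℝ] C(G, ℝ) :=
    { toFun := fun k => k.comp ⟨π, hc⟩
      map_add' := fun _ _ => rfl
      map_smul' := fun _ _ => rfl }
  have hcinj : Function.Injective c := by
    intro k k' hk
    ext q
    obtain ⟨x, rfl⟩ := hs q
    exact DFunLike.congr_fun hk x
  let pl : C(Q, ℝ) →ₗ[ℝ] ℝ :=
    { toFun := p
      map_add' := h1
      map_smul' := fun r f => by rw [h2]; rfl }
  let D : C(G, ℝ) →ₗ.[ℝ] ℝ :=
    ⟨LinearMap.range c, pl ∘ₗ (LinearEquiv.ofInjective c hcinj).symm.toLinearMap⟩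
  let K : PointedCone ℝ C(G, ℝ) :=
    { carrier := {f | ∀ x, 0 ≤ f x}
      add_mem' := fun {a b} ha hb x => add_nonneg (ha x) (hb x)
      zero_mem' := fun x => le_refl _
      smul_mem' := fun r f hf x => mul_nonneg r.2 (hf x) }
  have hD : ∀ k : C(Q, ℝ), D.toFun ⟨c k, ⟨k, rfl⟩⟩ = p k := by
    intro k
    change p ((LinearEquiv.ofInjective c hcinj).symm ⟨c k, ⟨k, rfl⟩⟩) = p k
    congr 1
    rw [LinearEquiv.symm_apply_eq]
    rfl
  obtain ⟨g, hg1, hg2⟩ := riesz_extension K D (by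
    rintro ⟨_, k, rfl⟩ hx
    change 0 ≤ D.toFun ⟨c k, ⟨k, rfl⟩⟩
    rw [hD]
    refine h4 k (fun q => ?_)
    obtain ⟨x, rfl⟩ := hs q
    exact hx x) (by
    intro y
    refine ⟨⟨c (‖y‖ • 1), ⟨_, rfl⟩⟩, fun x => ?_⟩
    change 0 ≤ ‖y‖ * 1 + y x
    have := (abs_le.1 (Real.norm_eq_abs (y x) ▸ ContinuousMap.norm_coe_le_norm y x)).1
    linarith)
  refine ⟨fun f => g f, ⟨fun f f' => map_add g f f', fun r f => ?_, ?_, fun f hf => hg2 f hf⟩, ?_⟩
  · change g (r • f) = r * g f
    rw [map_smul]; rfl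
  · have := hg1 ⟨c 1, ⟨1, rfl⟩⟩
    have h5 : D.toFun ⟨c 1, ⟨1, rfl⟩⟩ = p 1 := hD 1
    change g (c 1) = D.toFun ⟨c 1, ⟨1, rfl⟩⟩ at this
    rw [h5, h3] at this
    exact this
  · intro k
    have := hg1 ⟨c k, ⟨k, rfl⟩⟩
    change g (c k) = D.toFun ⟨c k, ⟨k, rfl⟩⟩ at this
    rw [hD] at this
    exact this

/-- `M` is isolated from above among the closed normal subloops -/
def IsoAbove (mul ldiv : G → G → G) (e : G) (M : Set G) : Prop :=
  ∃ V : Set G, IsOpen V ∧ M ⊆ V ∧ ∀ N : Set G, ClosedNormal mul ldiv e N → M ⊆ N → N ⊆ V → N = M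

theorem iso_state [CompactSpace G] [T2Space G] {mul ldiv rdiv : G → G → G} {e : G}
    (h : IsMoufang mul ldiv rdiv e)
    (hm : Continuous (fun p : G × G => mul p.1 p.2)) (hl : Continuous (fun p : G × G => ldiv p.1 p.2))
    (hr : Continuous (fun p : G × G => rdiv p.1 p.2)) {M : Set G} (hM : ClosedNormal mul ldiv e M)
    (hiso : IsoAbove mul ldiv e M) :
    ∃ P ∈ St G, ∀ (f : C(G, ℝ)) (ε : ℝ), (∀ x y, ldiv x y ∈ M → |f x - f y| ≤ ε) →
      ∀ (a : G) (g : C(G, ℝ)), ((∀ x, g x = f (mul a x)) ∨ (∀ x, g x = f (mul x a))) →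
        |P g - P f| ≤ 2 * ε := by
  obtain ⟨Q, _, _, _, mul', ldiv', rdiv', π, h', hm', hl', hr', hπc, hπo, hπs, h1, h2, h3, h4⟩ :=
    quot_data h hm hl hr hM
  obtain ⟨V, hVo, hMV, hV⟩ := hiso
  have hns : NoSmallNormal mul' ldiv' (π e) := by
    refine ⟨(π '' Vᶜ)ᶜ, ?_, ?_⟩
    · have hcl : IsClosed (π '' Vᶜ) := (hVo.isClosed_compl.isCompact.image hπc).isClosed
      refine hcl.isOpen_compl.mem_nhds ?_
      rintro ⟨x, hx, hxe⟩
      refine hx (hMV ?_)
      have := (h4 e x).1 hxe.symm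
      exact (CN_mem h hM x).1 this
    · intro N' hN' hN'V
      have hC' := CN_cong h' hN'
      have hC := hC'.comap (mul := mul) (ldiv := ldiv) (rdiv := rdiv) π h1 h2 h3
      have hset : {n | ldiv' (π e) (π n) ∈ N'} = π ⁻¹' N' := by
        ext n
        exact CN_mem h' hN' (π n)
      have hN : ClosedNormal mul ldiv e (π ⁻¹' N') := by
        have := hC.closedNormal h (by
          rw [hset]
          exact hN'.closed.preimage hπc)
        rwa [hset] at this
      have hMN : M ⊆ π ⁻¹' N' := by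
        intro x hx
        have : π e = π x := (h4 e x).2 ((CN_mem h hM x).2 hx)
        change π x ∈ N'
        rw [← this]
        exact hN'.one_mem
      have hNV : π ⁻¹' N' ⊆ V := by
        intro x hx
        by_contra hxV
        exact hN'V hx ⟨x, hxV, rfl⟩
      have heq := hV _ hN hMN hNV
      ext q
      obtain ⟨x, rfl⟩ := hπs q
      constructor
      · intro hx
        have hx2 : x ∈ π ⁻¹' N' := hx
        rw [heq] at hx2
        have := (h4 e x).2 ((CN_mem h hM x).2 hx2)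
        rw [← this]
        rfl
      · intro hx
        have hx' : π x = π e := hx
        rw [hx']
        exact hN'.one_mem
  obtain ⟨p, hp, hinv⟩ := amen_of_noSmallNormal h' hm' hl' hr' hns
  obtain ⟨P, hP, hPp⟩ := state_extend hπc hπs hp
  refine ⟨P, hP, ?_⟩
  intro f ε hf a g hg
  obtain ⟨k, hk⟩ := envelope hπc hπo hπs f
  have hkf : ∀ x, |f x - (k.comp ⟨π, hπc⟩) x| ≤ ε := by
    intro x
    obtain ⟨y, hy1, hy2⟩ := hk x
    change |f x - k (π x)| ≤ ε
    rw [hy2]
    exact hf x y ((h4 x y).1 hy1.symm)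
  have A1 := state_mono hP hkf
  rw [hPp] at A1
  rcases hg with hg | hg
  · let k' : C(Q, ℝ) := ⟨fun q => k (mul' (π a) q), k.continuous.comp
      (hm'.comp (continuous_const.prodMk continuous_id))⟩
    have hk' : p k' = p k := (hinv (π a) (mem_univ _)).1 k k' (fun _ => rfl)
    have hkg : ∀ x, |g x - (k'.comp ⟨π, hπc⟩) x| ≤ ε := by
      intro x
      change |g x - k (mul' (π a) (π x))| ≤ ε
      rw [hg, ← h1]
      exact hkf (mul a x)
    have A2 := state_mono hP hkg
    rw [hPp, hk'] at A2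
    rw [abs_le] at *
    constructor <;> linarith
  · let k' : C(Q, ℝ) := ⟨fun q => k (mul' q (π a)), k.continuous.comp
      (hm'.comp (continuous_id.prodMk continuous_const))⟩
    have hk' : p k' = p k := (hinv (π a) (mem_univ _)).2 k k' (fun _ => rfl)
    have hkg : ∀ x, |g x - (k'.comp ⟨π, hπc⟩) x| ≤ ε := by
      intro x
      change |g x - k (mul' (π x) (π a))| ≤ ε
      rw [hg, ← h1]
      exact hkf (mul x a)
    have A2 := state_mono hP hkg
    rw [hPp, hk'] at A2
    rw [abs_le] at *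
    constructor <;> linarith

end

end Pool.Agent.TH15.MoufangHaar
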