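import Mathlib
import Pool.Agent.TH15.MoufangHaar.Quot
import Pool.Agent.TH15.MoufangHaar.QState

set_option autoImplicit false
set_option linter.unusedSectionVars false

/-!
# The hyperspace of closed normal subloops
-/

namespace Pool.Agent.TH15.MoufangHaar

open Topology Filter Set
open TopologicalSpace (Compacts)
open Pool.Agent.Helper974.Moufang (IsMoufang)

universe u

section
variable {G : Type u} [TopologicalSpace G]

/-- the closed normal subloops, as a subset of the hyperspace of compact sets with the Vietoris topology -/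
def NN (mul ldiv : G → G → G) (e : G) : Set (Compacts G) := {N | ClosedNormal mul ldiv e (N : Set G)}

variable [CompactSpace G] [T2Space G] {mul ldiv rdiv : G → G → G} {e : G}
  (h : IsMoufang mul ldiv rdiv e)
  (hm : Continuous (fun p : G × G => mul p.1 p.2)) (hl : Continuous (fun p : G × G => ldiv p.1 p.2))
  (hr : Continuous (fun p : G × G => rdiv p.1 p.2))

/-- closed conditions on the hyperspace -/
theorem closed_cond {φ : G × G → G} (hφ : Continuous φ) :
    IsClosed {N : Compacts G | ∀ a ∈ N, ∀ b ∈ N, φ (a, b) ∈ N} := by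
  have : {N : Compacts G | ∀ a ∈ N, ∀ b ∈ N, φ (a, b) ∈ N} =
      {N : Compacts G | (N ×ˢ N).map φ hφ ⊔ N = N} := by
    ext N
    constructor
    · intro hN
      refine sup_eq_right.2 ?_
      intro z hz
      obtain ⟨⟨a, b⟩, ⟨ha, hb⟩, rfl⟩ := hz
      exact hN a ha b hb
    · intro hN a ha b hb
      have h1 : (N ×ˢ N).map φ hφ ≤ N := sup_eq_right.1 hN
      exact h1 ⟨(a, b), ⟨ha, hb⟩, rfl⟩
  rw [this]
  refine isClosed_eq ?_ continuous_id
  exact (hφ.compacts_map.comp (TopologicalSpace.Compacts.continuous_prod.comp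
    (continuous_id.prodMk continuous_id))).sup continuous_id

theorem closed_mem (x : G) : IsClosed {N : Compacts G | x ∈ N} := by
  have := TopologicalSpace.Compacts.isClosed_inter_nonempty_of_isClosed (isClosed_singleton (x := x))
  convert this using 1
  ext N
  constructor
  · intro hx
    exact ⟨x, hx, rfl⟩
  · rintro ⟨y, hy, rfl⟩
    exact hy

include h in
theorem CN_iff (N : Compacts G) : ClosedNormal mul ldiv e (N : Set G) ↔
    e ∈ N ∧ (∀ a ∈ N, ∀ b ∈ N, mul a b ∈ N) ∧ (∀ a ∈ N, ∀ b ∈ N, ldiv a e ∈ N) ∧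
    ∀ x y, (∀ a ∈ N, ∀ b ∈ N, rdiv (mul x a) x ∈ N) ∧ (∀ a ∈ N, ∀ b ∈ N, ldiv x (mul a x) ∈ N) ∧
      (∀ a ∈ N, ∀ b ∈ N, ldiv (mul x y) (mul x (mul y a)) ∈ N) ∧
      (∀ a ∈ N, ∀ b ∈ N, ldiv y (ldiv x (mul (mul x y) a)) ∈ N) ∧
      (∀ a ∈ N, ∀ b ∈ N, rdiv (mul (mul a x) y) (mul x y) ∈ N) ∧
      (∀ a ∈ N, ∀ b ∈ N, rdiv (rdiv (mul a (mul x y)) y) x ∈ N) := by
  constructor
  · intro hN
    refine ⟨hN.one_mem, hN.mul_mem, fun a ha _ _ => hN.inv_mem a ha, fun x y => ⟨?_, ?_, ?_, ?_, ?_, ?_⟩⟩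
    · intro a ha _ _
      have : mul x a ∈ (fun n => mul x n) '' (N : Set G) := ⟨a, ha, rfl⟩
      rw [hN.comm] at this
      obtain ⟨n, hn, hn2⟩ := this
      rw [← hn2]
      change rdiv (mul n x) x ∈ N
      rw [h.mul_rdiv]; exact hn
    · intro a ha _ _
      have : mul a x ∈ (fun n => mul n x) '' (N : Set G) := ⟨a, ha, rfl⟩
      rw [← hN.comm] at this
      obtain ⟨n, hn, hn2⟩ := this
      rw [← hn2]
      change ldiv x (mul x n) ∈ N
      rw [h.ldiv_mul]; exact hn
    · intro a ha _ _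
      have : mul x (mul y a) ∈ (fun n => mul x (mul y n)) '' (N : Set G) := ⟨a, ha, rfl⟩
      rw [hN.left] at this
      obtain ⟨n, hn, hn2⟩ := this
      rw [← hn2]
      change ldiv (mul x y) (mul (mul x y) n) ∈ N
      rw [h.ldiv_mul]; exact hn
    · intro a ha _ _
      have : mul (mul x y) a ∈ (fun n => mul (mul x y) n) '' (N : Set G) := ⟨a, ha, rfl⟩
      rw [← hN.left] at this
      obtain ⟨n, hn, hn2⟩ := this
      rw [← hn2]
      change ldiv y (ldiv x (mul x (mul y n))) ∈ N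
      rw [h.ldiv_mul, h.ldiv_mul]; exact hn
    · intro a ha _ _
      have : mul (mul a x) y ∈ (fun n => mul (mul n x) y) '' (N : Set G) := ⟨a, ha, rfl⟩
      rw [hN.right] at this
      obtain ⟨n, hn, hn2⟩ := this
      rw [← hn2]
      change rdiv (mul n (mul x y)) (mul x y) ∈ N
      rw [h.mul_rdiv]; exact hn
    · intro a ha _ _
      have : mul a (mul x y) ∈ (fun n => mul n (mul x y)) '' (N : Set G) := ⟨a, ha, rfl⟩
      rw [← hN.right] at this
      obtain ⟨n, hn, hn2⟩ := this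
      rw [← hn2]
      change rdiv (rdiv (mul (mul n x) y) y) x ∈ N
      rw [h.mul_rdiv, h.mul_rdiv]; exact hn
  · rintro ⟨h0, h1, h2, h3⟩
    refine ⟨N.isCompact.isClosed, h0, h1, fun a ha => h2 a ha a ha, ?_, ?_, ?_⟩
    · intro x
      ext z
      constructor
      · rintro ⟨a, ha, rfl⟩
        exact ⟨_, (h3 x x).1 a ha a ha, h.rdiv_mul _ _⟩
      · rintro ⟨a, ha, rfl⟩
        exact ⟨_, (h3 x x).2.1 a ha a ha, h.mul_ldiv _ _⟩
    · intro x y
      ext z
      constructor
      · rintro ⟨a, ha, rfl⟩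
        exact ⟨_, (h3 x y).2.2.1 a ha a ha, h.mul_ldiv _ _⟩
      · rintro ⟨a, ha, rfl⟩
        refine ⟨_, (h3 x y).2.2.2.1 a ha a ha, ?_⟩
        change mul x (mul y (ldiv y (ldiv x (mul (mul x y) a)))) = mul (mul x y) a
        rw [h.mul_ldiv, h.mul_ldiv]
    · intro x y
      ext z
      constructor
      · rintro ⟨a, ha, rfl⟩
        exact ⟨_, (h3 x y).2.2.2.2.1 a ha a ha, h.rdiv_mul _ _⟩
      · rintro ⟨a, ha, rfl⟩
        refine ⟨_, (h3 x y).2.2.2.2.2 a ha a ha, ?_⟩
        change mul (mul (rdiv (rdiv (mul a (mul x y)) y) x) x) y = mul a (mul x y)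
        rw [h.rdiv_mul, h.rdiv_mul]

include h hm hl hr in
theorem NN_closed : IsClosed (NN mul ldiv e) := by
  have : NN mul ldiv e = {N : Compacts G | e ∈ N} ∩
      ({N : Compacts G | ∀ a ∈ N, ∀ b ∈ N, (fun q : G × G => mul q.1 q.2) (a, b) ∈ N} ∩
      ({N : Compacts G | ∀ a ∈ N, ∀ b ∈ N, (fun q : G × G => ldiv q.1 e) (a, b) ∈ N} ∩
      ⋂ x : G, ⋂ y : G,
      ({N : Compacts G | ∀ a ∈ N, ∀ b ∈ N, (fun q : G × G => rdiv (mul x q.1) x) (a, b) ∈ N} ∩
      ({N : Compacts G | ∀ a ∈ N, ∀ b ∈ N, (fun q : G × G => ldiv x (mul q.1 x)) (a, b) ∈ N} ∩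
      ({N : Compacts G | ∀ a ∈ N, ∀ b ∈ N,
        (fun q : G × G => ldiv (mul x y) (mul x (mul y q.1))) (a, b) ∈ N} ∩
      ({N : Compacts G | ∀ a ∈ N, ∀ b ∈ N,
        (fun q : G × G => ldiv y (ldiv x (mul (mul x y) q.1))) (a, b) ∈ N} ∩
      ({N : Compacts G | ∀ a ∈ N, ∀ b ∈ N,
        (fun q : G × G => rdiv (mul (mul q.1 x) y) (mul x y)) (a, b) ∈ N} ∩
      {N : Compacts G | ∀ a ∈ N, ∀ b ∈ N,
        (fun q : G × G => rdiv (rdiv (mul q.1 (mul x y)) y) x) (a, b) ∈ N}))))))) := by
    ext N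
    simp only [NN, mem_ofPred_eq, CN_iff h, mem_inter_iff, mem_iInter]
  rw [this]
  have cm : ∀ {f g : G × G → G}, Continuous f → Continuous g → Continuous (fun q => mul (f q) (g q)) :=
    fun hf hg => hm.comp (hf.prodMk hg)
  have cl : ∀ {f g : G × G → G}, Continuous f → Continuous g → Continuous (fun q => ldiv (f q) (g q)) :=
    fun hf hg => hl.comp (hf.prodMk hg)
  have cr : ∀ {f g : G × G → G}, Continuous f → Continuous g → Continuous (fun q => rdiv (f q) (g q)) :=
    fun hf hg => hr.comp (hf.prodMk hg)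
  have c1 : Continuous (fun q : G × G => q.1) := continuous_fst
  have cc : ∀ x : G, Continuous (fun _ : G × G => x) := fun x => continuous_const
  refine (closed_mem e).inter ((closed_cond hm).inter ((closed_cond (cl c1 (cc e))).inter
    (isClosed_iInter fun x => isClosed_iInter fun y => ?_)))
  exact (closed_cond (cr (cm (cc x) c1) (cc x))).inter
    ((closed_cond (cl (cc x) (cm c1 (cc x)))).inter
    ((closed_cond (cl (cc (mul x y)) (cm (cc x) (cm (cc y) c1)))).inter
    ((closed_cond (cl (cc y) (cl (cc x) (cm (cc (mul x y)) c1)))).inter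
    ((closed_cond (cr (cm (cm c1 (cc x)) (cc y)) (cc (mul x y)))).inter
    (closed_cond (cr (cr (cm c1 (cc (mul x y))) (cc y)) (cc x)))))))

/-- the join of two compact sets: the product set -/
def join (hm : Continuous (fun p : G × G => mul p.1 p.2)) (K M : Compacts G) : Compacts G :=
  (K ×ˢ M).map (fun p : G × G => mul p.1 p.2) hm

theorem mem_join {K M : Compacts G} {z : G} :
    z ∈ join hm K M ↔ ∃ a ∈ K, ∃ b ∈ M, mul a b = z := by
  constructor
  · rintro ⟨⟨a, b⟩, ⟨ha, hb⟩, rfl⟩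
    exact ⟨a, ha, b, hb, rfl⟩
  · rintro ⟨a, ha, b, hb, rfl⟩
    exact ⟨(a, b), ⟨ha, hb⟩, rfl⟩

theorem join_cont (M : Compacts G) : Continuous (fun K => join hm K M) :=
  hm.compacts_map.comp (TopologicalSpace.Compacts.continuous_prod.comp
    (continuous_id.prodMk continuous_const))

include h in
theorem join_CN {K M : Compacts G} (hK : K ∈ NN mul ldiv e) (hM : M ∈ NN mul ldiv e) :
    join hm K M ∈ NN mul ldiv e := by
  have cK := CN_cong h hK
  have cM := CN_cong h hM
  -- permutability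
  have perm : ∀ x y z, ldiv x y ∈ (K : Set G) → ldiv y z ∈ (M : Set G) →
      ∃ y', ldiv x y' ∈ (M : Set G) ∧ ldiv y' z ∈ (K : Set G) := by
    intro x y z hxy hyz
    refine ⟨mul x (ldiv y z), ?_, ?_⟩
    · rw [h.ldiv_mul]; exact hyz
    · have := cK.mul_r (ldiv y z) hxy
      rwa [h.mul_ldiv] at this
  have perm' : ∀ x y z, ldiv x y ∈ (M : Set G) → ldiv y z ∈ (K : Set G) →
      ∃ y', ldiv x y' ∈ (K : Set G) ∧ ldiv y' z ∈ (M : Set G) := by
    intro x y z hxy hyz
    refine ⟨mul x (ldiv y z), ?_, ?_⟩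
    · rw [h.ldiv_mul]; exact hyz
    · have := cM.mul_r (ldiv y z) hxy
      rwa [h.mul_ldiv] at this
  have hE : Cong mul ldiv rdiv (fun x z => ∃ y, ldiv x y ∈ (K : Set G) ∧ ldiv y z ∈ (M : Set G)) := by
    refine ⟨fun x => ⟨x, cK.refl x, cM.refl x⟩, ?_, ?_, ?_, ?_, ?_, ?_⟩
    · rintro x z ⟨y, a, b⟩
      exact perm' z y x (cM.symm b) (cK.symm a)
    · rintro x z w ⟨y, a, b⟩ ⟨y', c, d⟩
      obtain ⟨v, v1, v2⟩ := perm' y z y' b c
      exact ⟨v, cK.trans a v1, cM.trans v2 d⟩
    · rintro x z w ⟨y, a, b⟩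
      exact ⟨_, cK.mul_r w a, cM.mul_r w b⟩
    · rintro x z w ⟨y, a, b⟩
      exact ⟨_, cK.mul_l w a, cM.mul_l w b⟩
    · rintro x z w ⟨y, a, b⟩
      exact ⟨_, cK.ldiv_l w a, cM.ldiv_l w b⟩
    · rintro x z w ⟨y, a, b⟩
      exact ⟨_, cK.rdiv_r w a, cM.rdiv_r w b⟩
  have hset : {n | ∃ y, ldiv e y ∈ (K : Set G) ∧ ldiv y n ∈ (M : Set G)} = (join hm K M : Set G) := by
    ext n
    constructor
    · rintro ⟨y, a, b⟩
      rw [CN_mem h hK] at a
      exact (mem_join hm).2 ⟨y, a, _, b, h.mul_ldiv _ _⟩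
    · intro hn
      obtain ⟨a, ha, b, hb, rfl⟩ := (mem_join hm).1 hn
      refine ⟨a, (CN_mem h hK a).2 ha, ?_⟩
      rw [h.ldiv_mul]; exact hb
  have := hE.closedNormal h (by rw [hset]; exact (join hm K M).isCompact.isClosed)
  rw [hset] at this
  exact this

include h in
theorem le_join_left {K M : Compacts G} (hM : M ∈ NN mul ldiv e) : K ≤ join hm K M := by
  intro x hx
  exact (mem_join hm).2 ⟨x, hx, e, hM.one_mem, h.mul_one x⟩

include h in
theorem le_join_right {K M : Compacts G} (hK : K ∈ NN mul ldiv e) : M ≤ join hm K M := by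
  intro x hx
  exact (mem_join hm).2 ⟨e, hK.one_mem, x, hx, h.one_mul x⟩

include h in
theorem triv_CN : ({e} : Compacts G) ∈ NN mul ldiv e := by
  change ClosedNormal mul ldiv e (({e} : Compacts G) : Set G)
  have he : (({e} : Compacts G) : Set G) = {e} := rfl
  rw [he]
  have h1 := ldiv_self h e
  refine ⟨isClosed_singleton, rfl, ?_, ?_, ?_, ?_, ?_⟩
  · rintro x rfl y rfl
    exact h.one_mul _
  · rintro x rfl
    exact h1
  · intro x
    simp only [image_singleton, h.mul_one, h.one_mul]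
  · intro x y
    simp only [image_singleton, h.mul_one]
  · intro x y
    simp only [image_singleton, h.one_mul]

theorem closed_ge (M : Compacts G) : IsClosed {K : Compacts G | M ≤ K} := by
  have : {K : Compacts G | M ≤ K} = ⋂ x ∈ M, {K : Compacts G | x ∈ K} := by
    ext K
    simp only [mem_iInter]
    exact Iff.rfl
  rw [this]
  exact isClosed_biInter fun x _ => closed_mem x

/-- an upper bound in a compact family -/
theorem upper_bound {S c : Set (Compacts G)} (hS : IsClosed S) (hc : c ⊆ S) (hne : c.Nonempty)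
    (hdir : DirectedOn (· ≤ ·) c) : ∃ K ∈ S, ∀ K' ∈ c, K' ≤ K := by
  have : Nonempty c := hne.to_subtype
  obtain ⟨K, hK⟩ := IsCompact.nonempty_iInter_of_directed_nonempty_isCompact_isClosed
    (fun K' : c => S ∩ {K : Compacts G | (K' : Compacts G) ≤ K}) (by
      intro K1 K2
      obtain ⟨K3, h3, h13, h23⟩ := hdir K1 K1.2 K2 K2.2
      refine ⟨⟨K3, h3⟩, ?_, ?_⟩
      · rintro K ⟨a, b⟩
        exact ⟨a, le_trans h13 b⟩
      · rintro K ⟨a, b⟩
        exact ⟨a, le_trans h23 b⟩)
    (fun K' => ⟨K', hc K'.2, show (K' : Compacts G) ≤ K' from le_refl _⟩)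
    (fun K' => (hS.inter (closed_ge _)).isCompact) (fun K' => hS.inter (closed_ge _))
  rw [mem_iInter] at hK
  exact ⟨K, (hK ⟨hne.some, hne.some_mem⟩).1, fun K' hK' => (hK ⟨K', hK'⟩).2⟩

/-- the component of the trivial subloop -/
def XC (mul ldiv : G → G → G) (e : G) : Set (Compacts G) :=
  connectedComponentIn (NN mul ldiv e) ({e} : Compacts G)

include h hm hl hr in
theorem XC_closed : IsClosed (XC mul ldiv e) := by
  have hT := triv_CN (G := G) h
  have h1 : closure (XC mul ldiv e) ⊆ XC mul ldiv e := by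
    refine IsPreconnected.subset_connectedComponentIn isPreconnected_connectedComponentIn.closure
      (subset_closure (mem_connectedComponentIn hT)) ?_
    exact closure_minimal (connectedComponentIn_subset _ _) (NN_closed h hm hl hr)
  exact closure_subset_iff_isClosed.1 h1

include h in
theorem XC_join {K M : Compacts G} (hK : K ∈ XC mul ldiv e) (hM : M ∈ XC mul ldiv e) :
    join hm K M ∈ XC mul ldiv e := by
  have hT := triv_CN (G := G) h
  have hMN : M ∈ NN mul ldiv e := connectedComponentIn_subset _ _ hM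
  have h1 : IsPreconnected ((fun K => join hm K M) '' XC mul ldiv e) :=
    isPreconnected_connectedComponentIn.image _ (join_cont hm M).continuousOn
  have h2 : M ∈ (fun K => join hm K M) '' XC mul ldiv e := by
    refine ⟨{e}, mem_connectedComponentIn hT, ?_⟩
    change join hm {e} M = M
    ext z
    constructor
    · intro hz
      obtain ⟨a, ha, b, hb, rfl⟩ := (mem_join hm).1 hz
      have : a = e := ha
      rw [this, h.one_mul]
      exact hb
    · intro hz
      exact (mem_join hm).2 ⟨e, rfl, z, hz, h.one_mul z⟩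
  have h3 : (fun K => join hm K M) '' XC mul ldiv e ⊆ NN mul ldiv e := by
    rintro _ ⟨K', hK', rfl⟩
    exact join_CN h hm (connectedComponentIn_subset _ _ hK') hMN
  have h4 := h1.subset_connectedComponentIn h2 h3
  have h5 : connectedComponentIn (NN mul ldiv e) M = XC mul ldiv e :=
    (connectedComponentIn_eq hM).symm
  rw [h5] at h4
  exact h4 ⟨K, hK, rfl⟩

include h hm hl hr in
/-- the component of the trivial subloop has a largest element, which is a connected set -/
theorem XC_top : ∃ M ∈ XC mul ldiv e, (∀ K ∈ XC mul ldiv e, K ≤ M) ∧ IsConnected (M : Set G) := by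
  have hT := triv_CN (G := G) h
  have hdir : DirectedOn (· ≤ ·) (XC mul ldiv e) := by
    intro K hK M hM
    exact ⟨join hm K M, XC_join h hm hK hM,
      le_join_left h hm (connectedComponentIn_subset _ _ hM),
      le_join_right h hm (connectedComponentIn_subset _ _ hK)⟩
  obtain ⟨M, hM, hMt⟩ := upper_bound (XC_closed h hm hl hr) subset_rfl
    ⟨{e}, mem_connectedComponentIn hT⟩ hdir
  refine ⟨M, hM, hMt, ⟨e, (connectedComponentIn_subset _ _ hM).one_mem⟩, ?_⟩
  have h1 : IsPreconnected (⋃₀ ((fun K : Compacts G => (K : Set G)) '' XC mul ldiv e)) := by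
    let _ : TopologicalSpace (Set G) := TopologicalSpace.vietoris G
    refine TopologicalSpace.vietoris.isPreconnected_sUnion
      (isPreconnected_connectedComponentIn.image _
        (TopologicalSpace.Compacts.continuous_coe.continuousOn)) ?_
    exact ⟨{e}, ⟨{e}, mem_connectedComponentIn hT, rfl⟩, isPreconnected_singleton⟩
  have h2 : ⋃₀ ((fun K : Compacts G => (K : Set G)) '' XC mul ldiv e) = (M : Set G) := by
    apply subset_antisymm
    · rintro x ⟨_, ⟨K, hK, rfl⟩, hx⟩
      exact hMt K hK hx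
    · intro x hx
      exact ⟨_, ⟨M, hM, rfl⟩, hx⟩
  rwa [h2] at h1

include h hm hl hr in
/-- near the largest element of the component there are closed normal subloops isolated from above -/
theorem iso_near {M : Compacts G} (hM : M ∈ XC mul ldiv e) (hMt : ∀ K ∈ XC mul ldiv e, K ≤ M)
    (V : Set G) (hV : IsOpen V) (hMV : (M : Set G) ⊆ V) :
    ∃ M' : Set G, ClosedNormal mul ldiv e M' ∧ M' ⊆ V ∧ IsoAbove mul ldiv e M' := by
  have hMN : M ∈ NN mul ldiv e := connectedComponentIn_subset _ _ hM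
  let T : Set (Compacts G) := NN mul ldiv e ∩ {K | M ≤ K}
  have hTc : IsClosed T := (NN_closed h hm hl hr).inter (closed_ge M)
  have : CompactSpace T := isCompact_iff_compactSpace.1 hTc.isCompact
  let m : T := ⟨M, hMN, show M ≤ M from le_refl _⟩
  have hcomp : connectedComponent m = {m} := by
    refine subset_antisymm ?_ (singleton_subset_iff.2 mem_connectedComponent)
    intro K hK
    have h1 : IsPreconnected ((Subtype.val : T → Compacts G) '' connectedComponent m) :=
      isPreconnected_connectedComponent.image _ continuous_subtype_val.continuousOn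
    have h2 : M ∈ (Subtype.val : T → Compacts G) '' connectedComponent m :=
      ⟨m, mem_connectedComponent, rfl⟩
    have h3 : (Subtype.val : T → Compacts G) '' connectedComponent m ⊆ NN mul ldiv e := by
      rintro _ ⟨K', -, rfl⟩
      exact K'.2.1
    have h4 := h1.subset_connectedComponentIn h2 h3
    have h5 : connectedComponentIn (NN mul ldiv e) M = XC mul ldiv e :=
      (connectedComponentIn_eq hM).symm
    rw [h5] at h4
    have h6 : (K : Compacts G) ≤ M := hMt _ (h4 ⟨K, hK, rfl⟩)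
    exact Subtype.ext (le_antisymm h6 K.2.2)
  -- a clopen neighbourhood
  have hclop : ∃ C : Set T, IsClopen C ∧ m ∈ C ∧ ∀ K ∈ C, ((K : Compacts G) : Set G) ⊆ V := by
    have hO : IsOpen {K : T | ((K : Compacts G) : Set G) ⊆ V} :=
      (TopologicalSpace.Compacts.isOpen_subsets_of_isOpen hV).preimage continuous_subtype_val
    rw [connectedComponent_eq_iInter_isClopen] at hcomp
    have : Nonempty {s : Set T // IsClopen s ∧ m ∈ s} := ⟨⟨univ, isClopen_univ, mem_univ _⟩⟩
    obtain ⟨C, hC⟩ := exists_subset_nhds_of_isCompact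
      (V := fun s : {s : Set T // IsClopen s ∧ m ∈ s} => (s : Set T))
      (U := {K : T | ((K : Compacts G) : Set G) ⊆ V})
      (fun s t => ⟨⟨s ∩ t, s.2.1.inter t.2.1, s.2.2, t.2.2⟩, inter_subset_left, inter_subset_right⟩)
      (fun s => s.2.1.isClosed.isCompact) (by
        intro K hK
        rw [hcomp] at hK
        have : K = m := hK
        rw [this]
        exact hO.mem_nhds hMV)
    exact ⟨C, C.2.1, C.2.2, fun K hK => hC hK⟩
  obtain ⟨C, hC, hmC, hCV⟩ := hclop
  -- a maximal element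
  have hC' : IsClosed ((Subtype.val : T → Compacts G) '' C) :=
    (hC.isClosed.isCompact.image continuous_subtype_val).isClosed
  obtain ⟨M', hMM', hM'max⟩ := zorn_le_nonempty₀ ((Subtype.val : T → Compacts G) '' C) (by
    intro c hc hchain y hy
    obtain ⟨K, hK, hK2⟩ := upper_bound hC' hc ⟨y, hy⟩ hchain.directedOn
    exact ⟨K, hK, hK2⟩) M ⟨m, hmC, rfl⟩
  obtain ⟨M1, hM1, hM1e⟩ := hM'max.1
  have hM'T : M' ∈ T := hM1e ▸ M1.2
  refine ⟨M', hM'T.1, by rw [← hM1e]; exact hCV M1 hM1, ?_⟩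
  -- isolated from above
  obtain ⟨W, hWo, hWC⟩ := isOpen_induced_iff.1 hC.isOpen
  have hM'W : M' ∈ W := by
    have : M1 ∈ Subtype.val ⁻¹' W := by rw [hWC]; exact hM1
    rw [← hM1e]
    exact this
  obtain ⟨_, ⟨u, ⟨hu1, hu2⟩, rfl⟩, hub, huW⟩ :=
    TopologicalSpace.Compacts.isTopologicalBasis.exists_subset_of_mem_open hM'W hWo
  refine ⟨⋃₀ u, isOpen_sUnion hu2, hub.1, ?_⟩
  intro N hN hM'N hNu
  let N' : Compacts G := ⟨N, hN.closed.isCompact⟩
  have hN'W : N' ∈ W := by
    refine huW ⟨hNu, fun U hU => ?_⟩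
    obtain ⟨x, hx1, hx2⟩ := hub.2 U hU
    exact ⟨x, hM'N hx1, hx2⟩
  have hN'T : N' ∈ T := ⟨hN, le_trans hM'T.2 (show M' ≤ N' from hM'N)⟩
  have hN'C : (⟨N', hN'T⟩ : T) ∈ C := by
    rw [← hWC]
    exact hN'W
  have := hM'max.2 (show N' ∈ (Subtype.val : T → Compacts G) '' C from ⟨⟨N', hN'T⟩, hN'C, rfl⟩)
    (show M' ≤ N' from hM'N)
  exact subset_antisymm (show N ⊆ (M' : Set G) from this) hM'N

end

end Pool.Agent.TH15.MoufangHaar
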