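import Mathlib
import Pool.Agent.TH15.MoufangHaar.Hyper

set_option autoImplicit false
set_option linter.unusedSectionVars false

/-!
# Small connected closed normal subloops
-/

namespace Pool.Agent.TH15.MoufangHaar

open Topology Filter Set
open TopologicalSpace (Compacts)
open Pool.Agent.Helper974.Moufang (IsMoufang)

universe u

section
variable {G : Type u} [TopologicalSpace G]

/-- the unit has a neighbourhood which contains no nontrivial connected closed normal subloop -/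
def NoSmallConnectedNormal (mul ldiv : G → G → G) (e : G) : Prop :=
  ∃ V ∈ 𝓝 e, ∀ N : Set G, ClosedNormal mul ldiv e N → IsConnected N → N ⊆ V → N = {e}

/-- one step of size `U` upwards, below `M` -/
def Step (mul ldiv : G → G → G) (e : G) (M : Compacts G) (U : Set G) (K K' : Compacts G) : Prop :=
  K' ∈ NN mul ldiv e ∧ K' ≤ M ∧ K ≤ K' ∧ ∀ x ∈ K', ∃ k ∈ K, ldiv k x ∈ U

theorem Step.mono {mul ldiv : G → G → G} {e : G} {M : Compacts G} {U U' : Set G} (hU : U ⊆ U')
    {K K' : Compacts G} (hK : Step mul ldiv e M U K K') : Step mul ldiv e M U' K K' :=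
  ⟨hK.1, hK.2.1, hK.2.2.1, fun x hx => by
    obtain ⟨k, hk, hk2⟩ := hK.2.2.2 x hx
    exact ⟨k, hk, hU hk2⟩⟩

variable [CompactSpace G] [T2Space G] {mul ldiv rdiv : G → G → G} {e : G}
  (h : IsMoufang mul ldiv rdiv e)
  (hm : Continuous (fun p : G × G => mul p.1 p.2)) (hl : Continuous (fun p : G × G => ldiv p.1 p.2))
  (hr : Continuous (fun p : G × G => rdiv p.1 p.2))

include h hl in
/-- sets near `K` in the Vietoris topology come close to every point of `K` -/
theorem near_nhds (K : Compacts G) {U : Set G} (hU : IsOpen U) (heU : e ∈ U) :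
    ∀ᶠ K' in 𝓝 K, ∀ x ∈ K, ∃ k ∈ K', ldiv k x ∈ U := by
  have hx : ∀ x : G, ∃ A B : Set G, IsOpen A ∧ IsOpen B ∧ x ∈ A ∧ x ∈ B ∧
      ∀ a ∈ A, ∀ b ∈ B, ldiv a b ∈ U := by
    intro x
    have h1 : IsOpen ((fun p : G × G => ldiv p.1 p.2) ⁻¹' U) := hU.preimage hl
    have h2 : (x, x) ∈ (fun p : G × G => ldiv p.1 p.2) ⁻¹' U := by
      change ldiv x x ∈ U
      rw [ldiv_self h]; exact heU
    obtain ⟨A, B, hA, hB, hxA, hxB, hAB⟩ := isOpen_prod_iff.1 h1 x x h2
    exact ⟨A, B, hA, hB, hxA, hxB, fun a ha b hb => hAB (mk_mem_prod ha hb)⟩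
  choose A B hA hB hxA hxB hAB using hx
  obtain ⟨t, ht⟩ := K.isCompact.elim_finite_subcover (fun x : K => B x) (fun x => hB x)
    (fun x hx => mem_iUnion.2 ⟨⟨x, hx⟩, hxB x⟩)
  have h3 : ∀ x ∈ t, ∀ᶠ K' : Compacts G in 𝓝 K, ((K' : Set G) ∩ A x).Nonempty := fun x _ =>
    (TopologicalSpace.Compacts.isOpen_inter_nonempty_of_isOpen (hA x)).mem_nhds
      ⟨x, x.2, hxA x⟩
  have h4 := (Filter.eventually_all_finset t).2 h3
  filter_upwards [h4] with K' hK' x hx
  obtain ⟨y, hy, hxy⟩ := mem_iUnion₂.1 (ht hx)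
  obtain ⟨k, hk1, hk2⟩ := hK' y hy
  exact ⟨k, hk1, hAB _ _ hk2 _ hxy⟩

include h hl in
theorem step_open (K : Compacts G) {U : Set G} (hU : IsOpen U) (heU : e ∈ U) :
    ∀ᶠ K' in 𝓝 K, ∀ x ∈ K', ∃ k ∈ K, ldiv k x ∈ U := by
  have h1 : IsOpen (⋃ k ∈ K, (fun x => ldiv k x) ⁻¹' U) :=
    isOpen_biUnion fun k _ => hU.preimage (hl.comp (continuous_const.prodMk continuous_id))
  have h2 : (K : Set G) ⊆ ⋃ k ∈ K, (fun x => ldiv k x) ⁻¹' U := by
    intro x hx
    refine mem_iUnion₂.2 ⟨x, hx, ?_⟩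
    change ldiv x x ∈ U
    rw [ldiv_self h]; exact heU
  filter_upwards [(TopologicalSpace.Compacts.isOpen_subsets_of_isOpen h1).mem_nhds h2] with K' hK' x hx
  obtain ⟨k, hk1, hk2⟩ := mem_iUnion₂.1 (hK' hx)
  exact ⟨k, hk1, hk2⟩

include h hm hl hr in
/-- chains of steps of size `U` reach the boundary -/
theorem reach {M : Compacts G} (hM : M ∈ XC mul ldiv e) (hMt : ∀ K ∈ XC mul ldiv e, K ≤ M)
    {F' F U : Set G} (hF'c : IsClosed F') (heF' : e ∈ F') (hU : IsOpen U) (heU : e ∈ U)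
    (hFU : ∀ a ∈ F', ∀ u ∈ U, mul a u ∈ F) (hMF' : ¬ (M : Set G) ⊆ F') :
    ∃ K : Compacts G, Relation.ReflTransGen (Step mul ldiv e M U) {e} K ∧ (K : Set G) ⊆ F ∧
      ¬ (K : Set G) ⊆ F' := by
  by_contra hcon
  push Not at hcon
  have hMN : M ∈ NN mul ldiv e := connectedComponentIn_subset _ _ hM
  let R : Set (Compacts G) := {K | Relation.ReflTransGen (Step mul ldiv e M U) {e} K ∧
    (K : Set G) ⊆ F'}
  have hRN : ∀ K ∈ R, K ∈ NN mul ldiv e ∧ K ≤ M := by
    rintro K ⟨hK, -⟩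
    rcases Relation.ReflTransGen.cases_tail hK with h1 | ⟨K', -, h2⟩
    · rw [h1]
      refine ⟨triv_CN h, ?_⟩
      intro x hx
      have : x = e := hx
      rw [this]
      exact hMN.one_mem
    · exact ⟨h2.1, h2.2.1⟩
  have heR : ({e} : Compacts G) ∈ R := by
    refine ⟨Relation.ReflTransGen.refl, ?_⟩
    intro x hx
    have : x = e := hx
    rw [this]
    exact heF'
  obtain ⟨Km, -, hKmax⟩ := zorn_le_nonempty₀ R (by
    intro c hc hchain y hy
    have hcl : c ⊆ closure c := subset_closure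
    obtain ⟨K, hK, hKub⟩ := upper_bound isClosed_closure hcl ⟨y, hy⟩ hchain.directedOn
    have h1 : ∃ K' ∈ c, ∀ x ∈ K, ∃ k ∈ K', ldiv k x ∈ U := by
      have h2 := near_nhds h hl K hU heU
      obtain ⟨K', hK'1, hK'2⟩ := mem_closure_iff_nhds.1 hK _ h2
      exact ⟨K', hK'2, hK'1⟩
    obtain ⟨K', hK'c, hK'⟩ := h1
    have hKN : K ∈ NN mul ldiv e ∩ {K | K ≤ M} := by
      refine closure_minimal ?_ ((NN_closed h hm hl hr).inter ?_) hK
      · intro K1 hK1
        exact hRN K1 (hc hK1)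
      · exact TopologicalSpace.Compacts.isClosed_subsets_of_isClosed M.isCompact.isClosed
    have hKF' : (K : Set G) ⊆ F' := by
      have : K ∈ {K : Compacts G | (K : Set G) ⊆ F'} := by
        refine closure_minimal ?_ (TopologicalSpace.Compacts.isClosed_subsets_of_isClosed hF'c) hK
        intro K1 hK1
        exact (hc hK1).2
      exact this
    refine ⟨K, ⟨(hc hK'c).1.tail ⟨hKN.1, hKN.2, hKub K' hK'c, hK'⟩, hKF'⟩, fun z hz => hKub z hz⟩)
    {e} heR
  have hKmR := hKmax.1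
  obtain ⟨hKmN, hKmM⟩ := hRN Km hKmR
  -- a connected family above `Km`
  let Z : Set (Compacts G) := (fun K => join hm K Km) '' XC mul ldiv e
  have hZ : IsPreconnected Z :=
    isPreconnected_connectedComponentIn.image _ (join_cont hm Km).continuousOn
  have hZ1 : Km ∈ Z := by
    refine ⟨{e}, mem_connectedComponentIn (triv_CN h), ?_⟩
    change join hm {e} Km = Km
    ext z
    constructor
    · intro hz
      obtain ⟨a, ha, b, hb, rfl⟩ := (mem_join hm).1 hz
      have : a = e := ha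
      rw [this, h.one_mul]
      exact hb
    · intro hz
      exact (mem_join hm).2 ⟨e, rfl, z, hz, h.one_mul z⟩
  have hZ2 : M ∈ Z := by
    refine ⟨M, hM, ?_⟩
    change join hm M Km = M
    apply le_antisymm
    · intro z hz
      obtain ⟨a, ha, b, hb, rfl⟩ := (mem_join hm).1 hz
      exact hMN.mul_mem a ha b (hKmM hb)
    · exact le_join_left h hm hKmN
  have hZp : ∀ K' ∈ Z, K' ∈ NN mul ldiv e ∧ K' ≤ M ∧ Km ≤ K' := by
    rintro _ ⟨K, hK, rfl⟩
    refine ⟨join_CN h hm (connectedComponentIn_subset _ _ hK) hKmN, ?_,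
      le_join_right h hm (connectedComponentIn_subset _ _ hK)⟩
    intro z hz
    obtain ⟨a, ha, b, hb, rfl⟩ := (mem_join hm).1 hz
    exact hMN.mul_mem a (hMt K hK ha) b (hKmM hb)
  have hKmne : Km ≠ M := by
    intro hKM
    exact hMF' (hKM ▸ hKmR.2)
  -- there is a nearby element
  have hex : ∃ K' ∈ Z, K' ≠ Km ∧ ∀ x ∈ K', ∃ k ∈ Km, ldiv k x ∈ U := by
    by_contra hno
    push Not at hno
    obtain ⟨O, hO1, hO2, hO3⟩ := mem_nhds_iff.1 (step_open h hl Km hU heU)
    have h5 : ∀ K' ∈ Z, K' ∈ O → K' = Km := by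
      intro K' hK' hK'O
      by_contra hne
      obtain ⟨x, hx, hx2⟩ := hno K' hK' hne
      obtain ⟨k, hk1, hk2⟩ := hO1 hK'O x hx
      exact hx2 k hk1 hk2
    have h6 := hZ O {Km}ᶜ hO2 isOpen_compl_singleton (by
      intro K' hK'
      by_cases hc : K' = Km
      · left; rw [hc]; exact hO3
      · right; exact hc) ⟨Km, hZ1, hO3⟩ ⟨M, hZ2, fun hc => hKmne hc.symm⟩
    obtain ⟨K', hK'Z, hK'O, hK'n⟩ := h6
    exact hK'n (h5 K' hK'Z hK'O)
  obtain ⟨K', hK'Z, hK'ne, hK'U⟩ := hex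
  obtain ⟨g1, g2, g3⟩ := hZp K' hK'Z
  have hstep : Step mul ldiv e M U Km K' := ⟨g1, g2, g3, hK'U⟩
  have hK'F : (K' : Set G) ⊆ F := by
    intro x hx
    obtain ⟨k, hk1, hk2⟩ := hK'U x hx
    have := hFU k (hKmR.2 hk1) _ hk2
    rwa [h.mul_ldiv] at this
  have hK'F' := hcon K' (hKmR.1.tail hstep) hK'F
  exact hK'ne (le_antisymm (hKmax.2 ⟨hKmR.1.tail hstep, hK'F'⟩ g3) g3)

include h hm hl hr in
theorem top_triv {M : Compacts G} (hM : M ∈ XC mul ldiv e) (hMt : ∀ K ∈ XC mul ldiv e, K ≤ M)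
    (hMc : IsConnected (M : Set G)) (hns : NoSmallConnectedNormal mul ldiv e) :
    (M : Set G) = {e} := by
  obtain ⟨V, hV, hVN⟩ := hns
  have hMN : M ∈ NN mul ldiv e := connectedComponentIn_subset _ _ hM
  by_contra hne
  have hMV : ¬ (M : Set G) ⊆ V := fun hc => hne (hVN _ hMN hMc hc)
  obtain ⟨F, hF, hFc, hFV⟩ := exists_mem_nhds_isClosed_subset hV
  have n1 : (fun p : G × G => mul p.1 p.2) ⁻¹' F ∈ 𝓝 (e, e) := by
    refine hm.continuousAt ?_
    change F ∈ 𝓝 (mul e e)
    rw [h.one_mul]; exact hF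
  rw [nhds_prod_eq, mem_prod_iff] at n1
  obtain ⟨A, hA, B, hB, hAB⟩ := n1
  obtain ⟨F', hF', hF'c, hF'A⟩ := exists_mem_nhds_isClosed_subset (inter_mem hA hF)
  have hMF' : ¬ (M : Set G) ⊆ F' := fun hc => hMV (hc.trans ((hF'A.trans inter_subset_right).trans hFV))
  -- the family
  let ι := {U : Set G // IsOpen U ∧ e ∈ U ∧ U ⊆ B}
  let S : ι → Set (Compacts G) := fun U => {K | Relation.ReflTransGen (Step mul ldiv e M U) {e} K ∧
    (K : Set G) ⊆ F ∧ ((K : Set G) ∩ (interior F')ᶜ).Nonempty}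
  have : Nonempty ι := ⟨⟨interior B, isOpen_interior, mem_interior_iff_mem_nhds.2 hB, interior_subset⟩⟩
  obtain ⟨K, hK⟩ := IsCompact.nonempty_iInter_of_directed_nonempty_isCompact_isClosed
    (fun U : ι => closure (S U)) (by
      intro U U'
      refine ⟨⟨U ∩ U', U.2.1.inter U'.2.1, ⟨U.2.2.1, U'.2.2.1⟩, inter_subset_left.trans U.2.2.2⟩, ?_, ?_⟩
      · refine closure_mono ?_
        rintro K ⟨a, b, c⟩
        exact ⟨Relation.ReflTransGen.mono (fun _ _ hs => Step.mono inter_subset_left hs) _ _ a, b, c⟩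
      · refine closure_mono ?_
        rintro K ⟨a, b, c⟩
        exact ⟨Relation.ReflTransGen.mono (fun _ _ hs => Step.mono inter_subset_right hs) _ _ a, b, c⟩)
    (fun U => by
      obtain ⟨K, k1, k2, k3⟩ := reach h hm hl hr hM hMt hF'c (mem_of_mem_nhds hF') U.2.1 U.2.2.1
        (F := F) (fun a ha u hu => hAB (mk_mem_prod (hF'A ha).1 (U.2.2.2 hu)))
        hMF'
      obtain ⟨x, hx1, hx2⟩ := not_subset.1 k3
      exact ⟨K, subset_closure ⟨k1, k2, x, hx1, fun hc => hx2 (interior_subset hc)⟩⟩)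
    (fun U => isClosed_closure.isCompact) (fun U => isClosed_closure)
  rw [mem_iInter] at hK
  let U0 : ι := Classical.arbitrary ι
  have hreachN : ∀ (U : Set G) (K : Compacts G),
      Relation.ReflTransGen (Step mul ldiv e M U) {e} K → K ∈ NN mul ldiv e := by
    intro U K hK
    rcases Relation.ReflTransGen.cases_tail hK with h1 | ⟨K', -, h2⟩
    · rw [h1]; exact triv_CN h
    · exact h2.1
  have hKN : K ∈ NN mul ldiv e :=
    closure_minimal (fun K' hK' => hreachN _ K' hK'.1) (NN_closed h hm hl hr) (hK U0)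
  have hKF : (K : Set G) ⊆ F := by
    have : K ∈ {K : Compacts G | (K : Set G) ⊆ F} :=
      closure_minimal (fun K' hK' => hK'.2.1)
        (TopologicalSpace.Compacts.isClosed_subsets_of_isClosed hFc) (hK U0)
    exact this
  have hKb : ((K : Set G) ∩ (interior F')ᶜ).Nonempty := by
    have : K ∈ {K : Compacts G | ((K : Set G) ∩ (interior F')ᶜ).Nonempty} :=
      closure_minimal (fun K' hK' => hK'.2.2)
        (TopologicalSpace.Compacts.isClosed_inter_nonempty_of_isClosed isOpen_interior.isClosed_compl)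
        (hK U0)
    exact this
  have heK : e ∈ (K : Set G) := hKN.one_mem
  -- connectedness
  have key : ∀ u v : Set G, IsClosed u → IsClosed v → (K : Set G) ⊆ u ∪ v → Disjoint u v → e ∈ u →
      (K : Set G) ⊆ u := by
    intro u v hu hv hKuv huv heu
    by_contra hnot
    obtain ⟨b, hbK, hbu⟩ := not_subset.1 hnot
    obtain ⟨OA, OB, hOA, hOB, huA, hvB, hAB'⟩ := SeparatedNhds.of_isCompact_isCompact hu.isCompact
      hv.isCompact huv
    have hop : IsOpen ((fun p : G × G => mul p.1 p.2) ⁻¹' OA) := hOA.preimage hm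
    obtain ⟨P, W, hP, hW, huP, heW, hPW⟩ := generalized_tube_lemma hu.isCompact
      (isCompact_singleton (x := e)) hop (by
        rintro ⟨a, x⟩ ⟨ha, hx⟩
        have hx' : x = e := hx
        change mul a x ∈ OA
        rw [hx', h.mul_one]
        exact huA ha)
    let P' := P ∩ OA
    have heW' : e ∈ W := heW rfl
    let U : ι := ⟨W ∩ interior B, hW.inter isOpen_interior,
      ⟨heW', mem_interior_iff_mem_nhds.2 hB⟩, inter_subset_right.trans interior_subset⟩
    have hnb : {K' : Compacts G | (K' : Set G) ⊆ P' ∪ OB} ∩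
        {K' : Compacts G | ((K' : Set G) ∩ OB).Nonempty} ∈ 𝓝 K := by
      refine inter_mem ?_ ?_
      · refine (TopologicalSpace.Compacts.isOpen_subsets_of_isOpen
          ((hP.inter hOA).union hOB)).mem_nhds ?_
        intro x hx
        rcases hKuv hx with hx | hx
        · left; exact ⟨huP hx, huA hx⟩
        · right; exact hvB hx
      · refine (TopologicalSpace.Compacts.isOpen_inter_nonempty_of_isOpen hOB).mem_nhds ?_
        refine ⟨b, hbK, hvB ?_⟩
        rcases hKuv hbK with hx | hx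
        · exact absurd hx hbu
        · exact hx
    obtain ⟨K', ⟨hK'1, hK'2⟩, hK'S⟩ := mem_closure_iff_nhds.1 (hK U) _ hnb
    have hind : ∀ K' : Compacts G, Relation.ReflTransGen (Step mul ldiv e M U) {e} K' →
        (K' : Set G) ⊆ P' ∪ OB → (K' : Set G) ⊆ P' := by
      intro K' hr'
      induction hr' with
      | refl =>
        intro _ x hx
        have hx' : x = e := hx
        rw [hx']
        exact ⟨huP heu, huA heu⟩
      | @tail K1 K2 _ hs ih =>
        intro hsub x hx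
        have ih' := ih (fun y hy => hsub (hs.2.2.1 hy))
        obtain ⟨k, hk1, hk2⟩ := hs.2.2.2 x hx
        have h7 : mul k (ldiv k x) ∈ OA := hPW (mk_mem_prod (ih' hk1).1 hk2.1)
        rw [h.mul_ldiv] at h7
        rcases hsub hx with hx1 | hx1
        · exact hx1
        · exact absurd hx1 (disjoint_left.1 hAB' h7)
    have h8 := hind K' hK'S.1 hK'1
    obtain ⟨z, hz1, hz2⟩ := hK'2
    exact disjoint_left.1 hAB' (h8 hz1).2 hz2
  have hKc : IsConnected (K : Set G) := by
    refine ⟨⟨e, heK⟩, ?_⟩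
    rw [isPreconnected_iff_subset_of_fully_disjoint_closed K.isCompact.isClosed]
    intro u v hu hv hKuv huv
    rcases hKuv heK with he | he
    · left; exact key u v hu hv hKuv huv he
    · right; exact key v u hv hu (by rwa [union_comm]) huv.symm he
  have hK1 := hVN _ hKN hKc (hKF.trans hFV)
  obtain ⟨x, hx1, hx2⟩ := hKb
  rw [hK1] at hx1
  have hx' : x = e := hx1
  rw [hx'] at hx2
  exact hx2 (mem_interior_iff_mem_nhds.2 hF')

end

end Pool.Agent.TH15.MoufangHaar
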