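import Mathlib
import Pool.Agent.TH15.MoufangHaar.QState

set_option autoImplicit false
set_option linter.unusedSectionVars false

/-!
# Limits of states along closed normal subloops isolated from above
-/

namespace Pool.Agent.TH15.MoufangHaar

open Topology Filter Set
open Pool.Agent.Helper974.Moufang (IsMoufang)
open Pool.Agent.H100R2.MH (St XX t01)

universe u

section
variable {G : Type u} [TopologicalSpace G]

theorem near_state [CompactSpace G] [T2Space G] {mul ldiv rdiv : G → G → G} {e : G}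
    (h : IsMoufang mul ldiv rdiv e)
    (hm : Continuous (fun p : G × G => mul p.1 p.2)) (hl : Continuous (fun p : G × G => ldiv p.1 p.2))
    (hr : Continuous (fun p : G × G => rdiv p.1 p.2)) {M : Set G}
    (hnear : ∀ V : Set G, IsOpen V → M ⊆ V →
      ∃ M' : Set G, ClosedNormal mul ldiv e M' ∧ M' ⊆ V ∧ IsoAbove mul ldiv e M') :
    ∃ P ∈ St G, ∀ f : C(G, ℝ), (∀ x, ∀ m ∈ M, f (mul x m) = f x) →
      ∀ (a : G) (g : C(G, ℝ)), ((∀ x, g x = f (mul a x)) ∨ (∀ x, g x = f (mul x a))) → P g = P f := by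
  obtain ⟨hStc, -, -, -⟩ := t01 G
  let A : Set G → Set (XX G) := fun V => St G ∩ {p | ∀ (f : C(G, ℝ)) (ε : ℝ),
    (∀ x, ∀ m ∈ V, |f (mul x m) - f x| ≤ ε) → ∀ (a : G) (g : C(G, ℝ)),
    ((∀ x, g x = f (mul a x)) ∨ (∀ x, g x = f (mul x a))) → |p g - p f| ≤ 2 * ε}
  have hAcl : ∀ V, IsClosed (A V) := by
    intro V
    refine hStc.isClosed.inter ?_
    have : {p : XX G | ∀ (f : C(G, ℝ)) (ε : ℝ),
        (∀ x, ∀ m ∈ V, |f (mul x m) - f x| ≤ ε) → ∀ (a : G) (g : C(G, ℝ)),
        ((∀ x, g x = f (mul a x)) ∨ (∀ x, g x = f (mul x a))) → |p g - p f| ≤ 2 * ε} =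
        ⋂ (f : C(G, ℝ)), ⋂ (ε : ℝ), ⋂ (_ : ∀ x, ∀ m ∈ V, |f (mul x m) - f x| ≤ ε), ⋂ (a : G),
          ⋂ (g : C(G, ℝ)), ⋂ (_ : (∀ x, g x = f (mul a x)) ∨ (∀ x, g x = f (mul x a))),
          {p : XX G | |p g - p f| ≤ 2 * ε} := by
      ext p
      simp only [mem_ofPred_eq, mem_iInter]
    rw [this]
    exact isClosed_iInter fun f => isClosed_iInter fun ε => isClosed_iInter fun _ =>
      isClosed_iInter fun a => isClosed_iInter fun g => isClosed_iInter fun _ =>
      isClosed_le ((continuous_apply g).sub (continuous_apply f)).abs continuous_const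
  have hAc : ∀ V, IsCompact (A V) := fun V => hStc.of_isClosed_subset (hAcl V) inter_subset_left
  have hAmono : ∀ V V', V ⊆ V' → A V ⊆ A V' := by
    intro V V' hVV p hp
    obtain ⟨hp1, hp2⟩ := hp
    exact ⟨hp1, fun f ε hf => hp2 f ε (fun x m hmV => hf x m (hVV hmV))⟩
  have hAne : ∀ V, IsOpen V → M ⊆ V → (A V).Nonempty := by
    intro V hV hMV
    obtain ⟨M', hM', hM'V, hiso⟩ := hnear V hV hMV
    obtain ⟨P, hP, hPi⟩ := iso_state h hm hl hr hM' hiso
    refine ⟨P, hP, fun f ε hf a g hg => hPi f ε (fun x y hxy => ?_) a g hg⟩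
    have := hf x _ (hM'V hxy)
    rw [h.mul_ldiv, abs_sub_comm] at this
    exact this
  let ι := {V : Set G // IsOpen V ∧ M ⊆ V}
  have : Nonempty ι := ⟨⟨univ, isOpen_univ, subset_univ _⟩⟩
  obtain ⟨p, hp⟩ := IsCompact.nonempty_iInter_of_directed_nonempty_isCompact_isClosed
    (fun V : ι => A V) (by
      intro V V'
      refine ⟨⟨V ∩ V', V.2.1.inter V'.2.1, subset_inter V.2.2 V'.2.2⟩, ?_, ?_⟩
      · exact hAmono _ _ inter_subset_left
      · exact hAmono _ _ inter_subset_right)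
    (fun V => hAne V V.2.1 V.2.2) (fun V => hAc V) (fun V => hAcl V)
  rw [mem_iInter] at hp
  refine ⟨p, (hp ⟨univ, isOpen_univ, subset_univ _⟩).1, ?_⟩
  intro f hf a g hg
  have key : ∀ ε : ℝ, 0 < ε → |p g - p f| ≤ 2 * ε := by
    intro ε hε
    let V : Set G := {m | ∃ x, ε ≤ |f (mul x m) - f x|}ᶜ
    have hVo : IsOpen V := by
      have : {m | ∃ x, ε ≤ |f (mul x m) - f x|} =
          Prod.snd '' {q : G × G | ε ≤ |f (mul q.1 q.2) - f q.1|} := by
        ext m
        constructor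
        · rintro ⟨x, hx⟩
          exact ⟨(x, m), hx, rfl⟩
        · rintro ⟨⟨x, m'⟩, hx, rfl⟩
          exact ⟨x, hx⟩
      change IsOpen ({m | ∃ x, ε ≤ |f (mul x m) - f x|}ᶜ)
      rw [this]
      have hcl : IsClosed {q : G × G | ε ≤ |f (mul q.1 q.2) - f q.1|} :=
        isClosed_le continuous_const
          (((f.continuous.comp hm).sub (f.continuous.comp continuous_fst)).abs)
      exact (hcl.isCompact.image continuous_snd).isClosed.isOpen_compl
    have hMV : M ⊆ V := by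
      rintro m hmM ⟨x, hx⟩
      rw [hf x m hmM, sub_self, abs_zero] at hx
      linarith
    refine (hp ⟨V, hVo, hMV⟩).2 f ε (fun x m hmV => ?_) a g hg
    by_contra hcon
    exact hmV ⟨x, (not_le.1 hcon).le⟩
  have h0 : |p g - p f| ≤ 0 := by
    refine le_of_forall_pos_le_add fun ε hε => ?_
    have := key (ε / 2) (by linarith)
    linarith
  have := abs_nonpos_iff.1 h0
  linarith

end

end Pool.Agent.TH15.MoufangHaar
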